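import Pool.Agent.Helper36.RN.MainA
import Pool.Agent.Helper2.RN.DIC
import Pool.Agent.Helper58.RN.HEX

/-!
# Project RFn, existence part: the heat equation along a framed flow
-/

namespace Pool.Agent.Helper36.RN

theorem dic : R_DIC := Helper2.RN.dic

theorem heatEx : Helper47.RFn.HeatExStmt := Helper58.RN.hex lin dic sfc cv cda

end Pool.Agent.Helper36.RN
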