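import Pool.Agent.Helper36.EV.Base
import Pool.Agent.Helper90.RFn.C1
import Pool.Agent.Helper8.RFn.C2
import Pool.Agent.Helper69.RFn.C3
import Pool.Agent.Helper65.RFn.C4

/-!
# Project RFn, existence part: the algebra of smooth functions on the sphere `Sⁿ` and its Sobolev forms

`Om n`: nonzero vectors of `ℝ^{n+1}`. `XS n`: smooth `0`-homogeneous functions on `Om n` (= smooth functions on
`Sⁿ`) as a real algebra; `ext f` is the extension by `0` to `EE n` (so that `Sm (ext f)`). Derivations: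
`Ld (i, j)` = infinitesimal rotation `x_i ∂_j - x_j ∂_i` (constant structure constants, skew-adjoint),
`Ee i = |x| ∂_i = ∑_j nu j Ld (j, i)`. `Wd w` iterated derivative along a word of pairs (`Wd [p, q] = Ld p ∘ Ld q`),
`We w` along a word in the `Ee i`, `ip u v = ∫ u v`, `bf m u v = ∑_{|w| ≤ m} ∫ (Wd w u) (Wd w v)`,
`sn m u = bf m u u`.
-/

namespace Pool.Agent.Helper36.RN

open Set Filter Topology MeasureTheory Pool.Agent.Helper47.RFn
open scoped ContDiff

theorem c1 : Goal_C1 := Pool.Agent.Helper90.RFn.goal_C1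
theorem c2 : Goal_C2 := Pool.Agent.Helper47.RFn.goal_C2 c1
theorem c3 : Goal_C3 := Pool.Agent.Helper47.RFn.goal_C3 c1 c2
theorem c4 : Goal_C4 := Pool.Agent.Helper65.RFn.goal_C4 c1 c2 c3

variable {n : ℕ}

/-- nonzero vectors of `ℝ^{n+1}` -/
abbrev Om (n : ℕ) : Type := {x : EE n // x ≠ 0}

/-- extension by zero -/
noncomputable def ext (f : Om n → ℝ) (x : EE n) : ℝ :=
  open Classical in if h : x ≠ 0 then f ⟨x, h⟩ else 0

theorem ext_apply (f : Om n → ℝ) (x : Om n) : ext f x.1 = f x := by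
  rw [ext, dif_pos x.2]

theorem ext_of_ne (f : Om n → ℝ) {x : EE n} (h : x ≠ 0) : ext f x = f ⟨x, h⟩ := by
  rw [ext, dif_pos h]

@[simp] theorem ext_zero (f : Om n → ℝ) : ext f 0 = 0 := by
  rw [ext, dif_neg (not_not.2 rfl)]

theorem ext_eq {f : Om n → ℝ} {F : EE n → ℝ} (h0 : F 0 = 0) (h : ∀ x : Om n, f x = F x.1) :
    ext f = F := by
  funext x
  by_cases hx : x = 0
  · rw [hx, ext_zero, h0]
  · rw [ext_of_ne f hx]
    exact h ⟨x, hx⟩

theorem ext_add (f h : Om n → ℝ) : ext (f + h) = fun x => ext f x + ext h x :=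
  ext_eq (by simp) fun x => by rw [ext_apply, ext_apply]; rfl

theorem ext_mul (f h : Om n → ℝ) : ext (f * h) = fun x => ext f x * ext h x :=
  ext_eq (by simp) fun x => by rw [ext_apply, ext_apply]; rfl

theorem ext_smul (c : ℝ) (f : Om n → ℝ) : ext (c • f) = fun x => c * ext f x :=
  ext_eq (by simp) fun x => by rw [ext_apply]; rfl

/-- changing the value at `0` does not matter -/
theorem sm_congr {f h : EE n → ℝ} (hf : Sm f) (hfh : ∀ x, x ≠ 0 → h x = f x) : Sm h := by
  refine ⟨hf.cd.congr fun x hx => hfh x hx, fun r x hr => ?_⟩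
  by_cases hx : x = 0
  · rw [hx, smul_zero]
  · rw [hfh _ (smul_ne_zero hr.ne' hx), hfh x hx, hf.hom r x hr]

theorem sm_ext_iff {f : Om n → ℝ} {F : EE n → ℝ} (h : ∀ x : Om n, f x = F x.1) :
    Sm (ext f) ↔ Sm F :=
  ⟨fun hf => sm_congr hf fun x hx => by rw [ext_of_ne f hx]; exact (h ⟨x, hx⟩).symm,
    fun hF => sm_congr hF fun x hx => by rw [ext_of_ne f hx]; exact h ⟨x, hx⟩⟩

/-- word derivatives at `x ≠ 0` do not see the value at `0` -/
theorem pd_congr {f h : EE n → ℝ} (hfh : ∀ x, x ≠ 0 → h x = f x) (i : Fin (n + 1)) {x : EE n}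
    (hx : x ≠ 0) : pd i h x = pd i f x := by
  have he : h =ᶠ[𝓝 x] f := by
    filter_upwards [isOpen_compl_singleton.mem_nhds hx] with y hy
    exact hfh y hy
  rw [pd, pd, he.fderiv_eq]

theorem ed_congr {f h : EE n → ℝ} (hfh : ∀ x, x ≠ 0 → h x = f x) (i : Fin (n + 1)) {x : EE n}
    (hx : x ≠ 0) : ed i h x = ed i f x := by
  rw [ed, ed, pd_congr hfh i hx]

theorem Lr_congr {f h : EE n → ℝ} (hfh : ∀ x, x ≠ 0 → h x = f x) (i j : Fin (n + 1)) {x : EE n}
    (hx : x ≠ 0) : Lr i j h x = Lr i j f x := by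
  rw [Lr, Lr, pd_congr hfh i hx, pd_congr hfh j hx]

theorem Ew_congr {f h : EE n → ℝ} (hfh : ∀ x, x ≠ 0 → h x = f x) (w : List (Fin (n + 1))) :
    ∀ x : EE n, x ≠ 0 → Ew w h x = Ew w f x := by
  induction w with
  | nil => exact hfh
  | cons i w ih => exact fun x hx => ed_congr ih i hx

/-- smooth functions on `Sⁿ` -/
def XS (n : ℕ) : Subalgebra ℝ (Om n → ℝ) where
  carrier := {f | Sm (ext f)}
  mul_mem' := fun {f h} hf hh => by
    change Sm (ext (f * h))
    rw [ext_mul]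
    exact (c1 n).2.2.2.1 _ _ hf hh
  add_mem' := fun {f h} hf hh => by
    change Sm (ext (f + h))
    rw [ext_add]
    exact (c1 n).2.1 _ _ hf hh
  algebraMap_mem' := fun c => (sm_ext_iff fun _ => rfl).2 ((c1 n).1 c)

theorem mem_XS {f : Om n → ℝ} : f ∈ XS n ↔ Sm (ext f) := Iff.rfl

/-- smoothness of an element of `XS n` -/
theorem sm (f : XS n) : Sm (ext f.1) := f.2

theorem XS_ext {f h : XS n} (H : ∀ x, f.1 x = h.1 x) : f = h := Subtype.ext (funext H)

/-- restriction of a smooth function -/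
def toXS (f : EE n → ℝ) (hf : Sm f) : XS n := ⟨fun x => f x.1, (sm_ext_iff fun _ => rfl).2 hf⟩

@[simp] theorem toXS_apply (f : EE n → ℝ) (hf : Sm f) (x : Om n) : (toXS f hf).1 x = f x.1 := rfl

theorem ext_toXS (f : EE n → ℝ) (hf : Sm f) {x : EE n} (hx : x ≠ 0) :
    ext (toXS f hf).1 x = f x := ext_of_ne _ hx

@[simp] theorem add_val (f h : XS n) (x : Om n) : (f + h).1 x = f.1 x + h.1 x := rfl
@[simp] theorem sub_val (f h : XS n) (x : Om n) : (f - h).1 x = f.1 x - h.1 x := rfl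
@[simp] theorem mul_val (f h : XS n) (x : Om n) : (f * h).1 x = f.1 x * h.1 x := rfl
@[simp] theorem neg_val (f : XS n) (x : Om n) : (-f).1 x = - f.1 x := rfl
@[simp] theorem smul_val (c : ℝ) (f : XS n) (x : Om n) : (c • f).1 x = c * f.1 x := rfl
@[simp] theorem zero_val (x : Om n) : (0 : XS n).1 x = 0 := rfl
@[simp] theorem one_val (x : Om n) : (1 : XS n).1 x = 1 := rfl
@[simp] theorem sum_val {ι : Type*} (s : Finset ι) (f : ι → XS n) (x : Om n) :
    (∑ i ∈ s, f i).1 x = ∑ i ∈ s, (f i).1 x := by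
  have h : ((∑ i ∈ s, f i : XS n) : Om n → ℝ) = ∑ i ∈ s, ((f i : XS n) : Om n → ℝ) :=
    map_sum (XS n).subtype f s
  rw [h, Finset.sum_apply]

/-- evaluation at a point -/
def evx (x : Om n) : XS n →ₐ[ℝ] ℝ where
  toFun f := f.1 x
  map_one' := rfl
  map_mul' _ _ := rfl
  map_zero' := rfl
  map_add' _ _ := rfl
  commutes' _ := rfl

theorem evx_apply (x : Om n) (f : XS n) : evx x f = f.1 x := rfl

/-- pairs of indices -/
abbrev KK (n : ℕ) : Type := Fin (n + 1) × Fin (n + 1)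

theorem Lr_zero (i j : Fin (n + 1)) (f : EE n → ℝ) : Lr i j f 0 = 0 := by
  simp [Lr]

theorem ed_zero (i : Fin (n + 1)) (f : EE n → ℝ) : ed i f 0 = 0 := by
  simp [ed]

theorem Lr_eq (i j : Fin (n + 1)) {f : EE n → ℝ} (hf : Sm f) (x : EE n) :
    Lr i j f x = nn i x * ed j f x - nn j x * ed i f x := by
  by_cases hx : x = 0
  · rw [hx, Lr_zero, ed_zero, ed_zero]; ring
  · exact (c3 n).2.2.2.2.2.1 i j f x hf hx

/-- the derivation `x_i ∂_j - x_j ∂_i` -/
noncomputable def Ld (p : KK n) : Derivation ℝ (XS n) (XS n) :=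
  Derivation.mk'
    { toFun := fun f => ⟨fun x => Lr p.1 p.2 (ext f.1) x.1,
        (sm_ext_iff fun _ => rfl).2 ((c1 n).2.2.2.2.2.2.2.2.2.1 _ _ _ f.2)⟩
      map_add' := fun f h => XS_ext fun x => by
        change Lr p.1 p.2 (ext (f.1 + h.1)) x.1 = Lr p.1 p.2 (ext f.1) x.1 + Lr p.1 p.2 (ext h.1) x.1
        have e := Lr_eq p.1 p.2 (f + h).2 x.1
        change Lr p.1 p.2 (ext (f.1 + h.1)) x.1 = nn p.1 x.1 * ed p.2 (ext (f.1 + h.1)) x.1
          - nn p.2 x.1 * ed p.1 (ext (f.1 + h.1)) x.1 at e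
        rw [e, Lr_eq _ _ f.2, Lr_eq _ _ h.2, ext_add,
          (c2 n).2.1 _ _ _ _ f.2 h.2, (c2 n).2.1 _ _ _ _ f.2 h.2]
        ring
      map_smul' := fun c f => XS_ext fun x => by
        change Lr p.1 p.2 (ext (c • f.1)) x.1 = c * Lr p.1 p.2 (ext f.1) x.1
        have e := Lr_eq p.1 p.2 (c • f).2 x.1
        change Lr p.1 p.2 (ext (c • f.1)) x.1 = nn p.1 x.1 * ed p.2 (ext (c • f.1)) x.1
          - nn p.2 x.1 * ed p.1 (ext (c • f.1)) x.1 at e
        rw [e, Lr_eq _ _ f.2, ext_smul,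
          (c2 n).2.2.2.2.2.1 _ _ _ _ f.2, (c2 n).2.2.2.2.2.1 _ _ _ _ f.2]
        ring }
    (fun f h => XS_ext fun x => by
      change Lr p.1 p.2 (ext (f.1 * h.1)) x.1 = f.1 x * Lr p.1 p.2 (ext h.1) x.1 +
        h.1 x * Lr p.1 p.2 (ext f.1) x.1
      have e := Lr_eq p.1 p.2 (f * h).2 x.1
      change Lr p.1 p.2 (ext (f.1 * h.1)) x.1 = nn p.1 x.1 * ed p.2 (ext (f.1 * h.1)) x.1
        - nn p.2 x.1 * ed p.1 (ext (f.1 * h.1)) x.1 at e
      rw [e, Lr_eq _ _ f.2, Lr_eq _ _ h.2, ext_mul,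
        (c2 n).2.2.2.2.1 _ _ _ _ f.2 h.2, (c2 n).2.2.2.2.1 _ _ _ _ f.2 h.2,
        ext_apply, ext_apply]
      ring)

theorem Ld_apply (p : KK n) (f : XS n) (x : Om n) : (Ld p f).1 x = Lr p.1 p.2 (ext f.1) x.1 := rfl

theorem ext_Ld (p : KK n) (f : XS n) : ext (Ld p f).1 = Lr p.1 p.2 (ext f.1) :=
  ext_eq (Lr_zero _ _ _) fun _ => rfl

/-- radial unit vector -/
noncomputable def nu (i : Fin (n + 1)) : XS n := toXS (nn i) ((c1 n).2.2.2.2.2.2.2.2.2.2.2 i)

theorem nu_apply (i : Fin (n + 1)) (x : Om n) : (nu i).1 x = nn i x.1 := rfl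

/-- the derivation `|x| ∂_i` -/
noncomputable def Ee (i : Fin (n + 1)) : Derivation ℝ (XS n) (XS n) := ∑ j, nu j • Ld (j, i)

theorem Ee_def (i : Fin (n + 1)) (f : XS n) : Ee i f = ∑ j, nu j * Ld (j, i) f := by
  rw [Ee, ← Derivation.coeFnAddMonoidHom_apply, map_sum, Finset.sum_apply]
  rfl

theorem Ee_apply (i : Fin (n + 1)) (f : XS n) (x : Om n) : (Ee i f).1 x = ed i (ext f.1) x.1 := by
  rw [Ee_def, sum_val, (c3 n).2.2.2.2.1 i _ _ f.2 x.2]
  rfl

theorem ext_Ee (i : Fin (n + 1)) (f : XS n) : ext (Ee i f).1 = ed i (ext f.1) :=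
  ext_eq (ed_zero _ _) fun x => Ee_apply i f x

theorem Ee_toXS (i : Fin (n + 1)) (f : EE n → ℝ) (hf : Sm f) (x : Om n) :
    (Ee i (toXS f hf)).1 x = ed i f x.1 := by
  rw [Ee_apply]
  exact ed_congr (fun y hy => ext_toXS f hf hy) i x.2

theorem Ld_eq (i j : Fin (n + 1)) (f : XS n) : Ld (i, j) f = nu i * Ee j f - nu j * Ee i f :=
  XS_ext fun x => by
    rw [sub_val, mul_val, mul_val, Ee_apply, Ee_apply, nu_apply, nu_apply, ← Lr_eq i j f.2]
    rfl

/-- `∑ nu_i e_i f = 0` -/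
theorem nu_Ee (f : XS n) : ∑ i, nu i * Ee i f = 0 :=
  XS_ext fun x => by
    rw [sum_val, zero_val, ← (c3 n).2.1 _ _ f.2 x.2]
    exact Finset.sum_congr rfl fun i _ => by rw [mul_val, Ee_apply, nu_apply]

/-- `e_i nu_j = δ_ij - nu_i nu_j` -/
theorem Ee_nu (i j : Fin (n + 1)) : Ee i (nu j) = (if i = j then 1 else 0) - nu i * nu j :=
  XS_ext fun x => by
    rw [nu, Ee_toXS, (c3 n).2.2.1 i j _ x.2, sub_val, mul_val]
    by_cases h : i = j
    · rw [if_pos h, if_pos h]; rfl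
    · rw [if_neg h, if_neg h]; rfl

theorem nu_sq : ∑ i, nu i ^ 2 = (1 : XS n) :=
  XS_ext fun x => by
    rw [sum_val, one_val, ← (c3 n).2.2.2.1 _ x.2]
    exact Finset.sum_congr rfl fun i _ => by rw [pow_two, mul_val, nu_apply, pow_two]

/-- `[e_i, e_j] = nu_i e_j - nu_j e_i` -/
theorem Ee_comm (i j : Fin (n + 1)) (f : XS n) :
    Ee i (Ee j f) - Ee j (Ee i f) = nu i * Ee j f - nu j * Ee i f :=
  XS_ext fun x => by
    rw [sub_val, sub_val, mul_val, mul_val, Ee_apply, Ee_apply, ext_Ee, ext_Ee, Ee_apply, Ee_apply,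
      nu_apply, nu_apply]
    exact (c3 n).1 i j _ _ f.2 x.2

/-- structure constants of the rotation fields -/
def cs (p q r : KK n) : ℝ :=
  (if p.2 = q.1 then 1 else 0) * (if r = (p.1, q.2) then 1 else 0)
    - (if p.1 = q.1 then 1 else 0) * (if r = (p.2, q.2) then 1 else 0)
    - (if p.2 = q.2 then 1 else 0) * (if r = (p.1, q.1) then 1 else 0)
    + (if p.1 = q.2 then 1 else 0) * (if r = (p.2, q.1) then 1 else 0)

/-- `[L_p, L_q] = ∑ cs p q r L_r` -/
theorem comm (p q : KK n) (f : XS n) :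
    Ld p (Ld q f) - Ld q (Ld p f) = ∑ r, cs p q r • Ld r f := by
  apply XS_ext
  intro x
  have h := (c3 n).2.2.2.2.2.2 p.1 p.2 q.1 q.2 _ _ f.2 x.2
  have e : ∀ (c : ℝ) (r0 : KK n), ∑ r, (c * (if r = r0 then 1 else 0)) * (Ld r f).1 x =
      c * (Ld r0 f).1 x := by
    intro c r0
    simp [mul_ite, ite_mul]
  have h2 : ((∑ r, cs p q r • Ld r f : XS n)).1 x =
      (if p.2 = q.1 then 1 else 0) * (Ld (p.1, q.2) f).1 x
      - (if p.1 = q.1 then 1 else 0) * (Ld (p.2, q.2) f).1 x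
      - (if p.2 = q.2 then 1 else 0) * (Ld (p.1, q.1) f).1 x
      + (if p.1 = q.2 then 1 else 0) * (Ld (p.2, q.1) f).1 x := by
    rw [sum_val, ← e, ← e, ← e, ← e, ← Finset.sum_sub_distrib, ← Finset.sum_sub_distrib,
      ← Finset.sum_add_distrib]
    refine Finset.sum_congr rfl fun r _ => ?_
    rw [smul_val, cs]
    ring
  rw [h2, sub_val, Ld_apply p, Ld_apply q, ext_Ld, ext_Ld]
  exact h

theorem Ld_swap (i j : Fin (n + 1)) (f : XS n) : Ld (i, j) f = - Ld (j, i) f := by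
  rw [Ld_eq, Ld_eq]; ring

/-- iterated derivative along a word of pairs -/
noncomputable def Wd : List (KK n) → XS n →ₗ[ℝ] XS n
  | [] => LinearMap.id
  | i :: w => (Ld i).toLinearMap ∘ₗ Wd w

@[simp] theorem Wd_nil (f : XS n) : Wd [] f = f := rfl

@[simp] theorem Wd_cons (i : KK n) (w : List (KK n)) (f : XS n) :
    Wd (i :: w) f = Ld i (Wd w f) := rfl

theorem Wd_append (v w : List (KK n)) (f : XS n) : Wd (v ++ w) f = Wd v (Wd w f) := by
  induction v with
  | nil => rfl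
  | cons i v ih => rw [List.cons_append, Wd_cons, Wd_cons, ih]

/-- iterated derivative along a word in the `Ee i` -/
noncomputable def We : List (Fin (n + 1)) → XS n →ₗ[ℝ] XS n
  | [] => LinearMap.id
  | i :: w => (Ee i).toLinearMap ∘ₗ We w

@[simp] theorem We_nil (f : XS n) : We [] f = f := rfl

@[simp] theorem We_cons (i : Fin (n + 1)) (w : List (Fin (n + 1))) (f : XS n) :
    We (i :: w) f = Ee i (We w f) := rfl

theorem We_append (v w : List (Fin (n + 1))) (f : XS n) : We (v ++ w) f = We v (We w f) := by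
  induction v with
  | nil => rfl
  | cons i v ih => rw [List.cons_append, We_cons, We_cons, ih]

/-- comparison with the word derivatives of `CoreN` -/
theorem We_val (w : List (Fin (n + 1))) (f : XS n) : ∀ x : Om n, (We w f).1 x = Ew w (ext f.1) x.1 := by
  induction w with
  | nil => exact fun x => (ext_apply f.1 x).symm
  | cons i w ih =>
    intro x
    rw [We_cons, Ee_apply]
    refine ed_congr (fun y hy => ?_) i x.2
    rw [ext_of_ne _ hy]
    exact ih ⟨y, hy⟩

/-- words of length at most `m` -/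
def Wn (α : Type) [Fintype α] [DecidableEq α] (m : ℕ) : Finset (List α) :=
  (Finset.range (m + 1)).biUnion fun k =>
    Finset.univ.image fun v : Fin k → α => List.ofFn v

theorem mem_Wn {α : Type} [Fintype α] [DecidableEq α] {m : ℕ} {w : List α} :
    w ∈ Wn α m ↔ w.length ≤ m := by
  simp only [Wn, Finset.mem_biUnion, Finset.mem_range, Finset.mem_image, Finset.mem_univ,
    true_and]
  constructor
  · rintro ⟨k, hk, v, rfl⟩
    rw [List.length_ofFn]
    omega
  · intro h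
    exact ⟨w.length, by omega, w.get, List.ofFn_get w⟩

/-- words of pairs of length at most `m` -/
abbrev Wle (m : ℕ) : Finset (List (KK n)) := Wn (KK n) m

theorem mem_Wle {m : ℕ} {w : List (KK n)} : w ∈ Wle m ↔ w.length ≤ m := mem_Wn

/-- an element of `XS n` is bounded -/
theorem bdd_val (f : XS n) : ∃ C, ∀ x, |f.1 x| ≤ C := by
  obtain ⟨C, hC⟩ := (c4 n).1 _ f.2
  refine ⟨C, fun x => ?_⟩
  have h := hC x.1
  rwa [ext_zero, abs_zero, add_zero, ext_apply] at h

theorem integrable_val (u : XS n) : IntegrableOn (ext u.1) (Metric.ball (0 : EE n) 1) :=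
  (c4 n).2.1 _ u.2

/-- `∫ u v` -/
noncomputable def ip : XS n →ₗ[ℝ] XS n →ₗ[ℝ] ℝ :=
  LinearMap.mk₂ ℝ (fun u v => integ (ext (u * v).1))
    (fun u u' v => by
      rw [add_mul]
      change integ (ext ((u * v).1 + (u' * v).1)) = _
      rw [ext_add]
      exact (congrArg (((n : ℝ) + 1) * ·) (integral_add (integrable_val (u * v))
        (integrable_val (u' * v)))).trans (mul_add _ _ _))
    (fun c u v => by
      rw [smul_mul_assoc]
      change integ (ext (c • (u * v).1)) = _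
      rw [ext_smul, integ, integral_const_mul, smul_eq_mul, integ]
      ring)
    (fun u v v' => by
      rw [mul_add]
      change integ (ext ((u * v).1 + (u * v').1)) = _
      rw [ext_add]
      exact (congrArg (((n : ℝ) + 1) * ·) (integral_add (integrable_val (u * v))
        (integrable_val (u * v')))).trans (mul_add _ _ _))
    (fun c u v => by
      rw [mul_smul_comm]
      change integ (ext (c • (u * v).1)) = _
      rw [ext_smul, integ, integral_const_mul, smul_eq_mul, integ]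
      ring)

theorem ip_eq (u v : XS n) : ip u v = integ (ext (u * v).1) := rfl

theorem ip_apply (u v : XS n) : ip u v = integ (fun x => ext u.1 x * ext v.1 x) := by
  rw [ip_eq]
  change integ (ext (u.1 * v.1)) = _
  rw [ext_mul]

theorem ip_comm (u v : XS n) : ip u v = ip v u := by
  rw [ip_eq, ip_eq, mul_comm]

theorem ip_mul_left (u v w : XS n) : ip (u * v) w = ip u (v * w) := by
  rw [ip_eq, ip_eq, mul_assoc]

theorem ip_nonneg (u : XS n) : 0 ≤ ip u u := by
  rw [ip_apply, integ]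
  have h : 0 ≤ ∫ x in Metric.ball (0 : EE n) 1, ext u.1 x * ext u.1 x :=
    integral_nonneg fun x => mul_self_nonneg _
  positivity

/-- monotonicity of the integral -/
theorem integ_mono {u v : XS n} (h : ∀ x, u.1 x ≤ v.1 x) : integ (ext u.1) ≤ integ (ext v.1) := by
  rw [integ, integ]
  refine mul_le_mul_of_nonneg_left ?_ (by positivity)
  refine setIntegral_mono (integrable_val u) (integrable_val v) fun x => ?_
  by_cases hx : x = 0
  · rw [hx, ext_zero, ext_zero]
  · rw [ext_of_ne _ hx, ext_of_ne _ hx]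
    exact h _

/-- monotonicity of the inner product -/
theorem ip_mono {u v u' v' : XS n} (h : ∀ x, u.1 x * v.1 x ≤ u'.1 x * v'.1 x) :
    ip u v ≤ ip u' v' := by
  rw [ip_eq, ip_eq]
  exact integ_mono h

/-- a smooth function of square integral `0` vanishes -/
theorem eq_zero_of_ip {u : XS n} (h : ip u u = 0) : u = 0 := by
  have hint : IntegrableOn (fun x => ext u.1 x * ext u.1 x) (Metric.ball (0 : EE n) 1) := by
    have h1 := integrable_val (u * u)
    change IntegrableOn (ext (u.1 * u.1)) _ at h1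
    rwa [ext_mul] at h1
  rw [ip_apply, integ] at h
  have h1 : ∫ x in Metric.ball (0 : EE n) 1, ext u.1 x * ext u.1 x = 0 := by
    rcases mul_eq_zero.1 h with h | h
    · exact absurd h (by positivity)
    · exact h
  rw [integral_eq_zero_iff_of_nonneg (fun x => mul_self_nonneg _) hint] at h1
  have h2 : (fun x => ext u.1 x) =ᵐ[volume.restrict (Metric.ball (0 : EE n) 1 ∩ {0}ᶜ)]
      fun _ => (0 : ℝ) := by
    refine ae_restrict_of_ae_restrict_of_subset inter_subset_left ?_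
    filter_upwards [h1] with x hx
    exact mul_self_eq_zero.1 hx
  have h3 := Measure.eqOn_open_of_ae_eq h2
    (Metric.isOpen_ball.inter isOpen_compl_singleton)
    (u.2.cd.continuousOn.mono inter_subset_right) continuousOn_const
  refine XS_ext fun x => ?_
  have hx : 0 < ‖x.1‖ := norm_pos_iff.2 x.2
  have hr : (0 : ℝ) < (2 * ‖x.1‖)⁻¹ := by positivity
  have h4 := h3 (show (2 * ‖x.1‖)⁻¹ • x.1 ∈ Metric.ball (0 : EE n) 1 ∩ {0}ᶜ from
    ⟨by
      rw [mem_ball_zero_iff, norm_smul, Real.norm_of_nonneg hr.le]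
      have : (2 * ‖x.1‖)⁻¹ * ‖x.1‖ = 1 / 2 := by field_simp
      rw [this]
      norm_num, smul_ne_zero hr.ne' x.2⟩)
  rw [zero_val, ← ext_apply u.1 x, ← u.2.hom _ x.1 hr]
  exact h4

/-- integration by parts -/
theorem ibp (p : KK n) (u v : XS n) : ip (Ld p u) v = - ip u (Ld p v) := by
  rw [ip_apply, ip_apply, ext_Ld, ext_Ld]
  exact (c4 n).2.2.2.1 p.1 p.2 _ _ u.2 v.2

/-- Sobolev form of order `m` -/
noncomputable def bf (m : ℕ) : XS n →ₗ[ℝ] XS n →ₗ[ℝ] ℝ :=
  ∑ w ∈ Wle m, ip.compl₁₂ (Wd w) (Wd w)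

theorem bf_apply (m : ℕ) (u v : XS n) : bf m u v = ∑ w ∈ Wle m, ip (Wd w u) (Wd w v) := by
  simp only [bf, LinearMap.sum_apply]
  rfl

/-- squared Sobolev norm of order `m` -/
noncomputable def sn (m : ℕ) (u : XS n) : ℝ := bf m u u

theorem sn_eq (m : ℕ) (u : XS n) : sn m u = ∑ w ∈ Wle m, ip (Wd w u) (Wd w u) := bf_apply m u u

theorem Wle_zero : (Wle 0 : Finset (List (KK n))) = {[]} := by
  ext w
  rw [mem_Wle, Finset.mem_singleton]
  exact ⟨fun h => List.length_eq_zero_iff.1 (by omega), fun h => by simp [h]⟩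

theorem sn_zero (u : XS n) : sn 0 u = ip u u := by
  rw [sn_eq, Wle_zero, Finset.sum_singleton]
  rfl

theorem bf_zero (u v : XS n) : bf 0 u v = ip u v := by
  rw [bf_apply, Wle_zero, Finset.sum_singleton]
  rfl

theorem bf_comm (m : ℕ) (u v : XS n) : bf m u v = bf m v u := by
  rw [bf_apply, bf_apply]
  exact Finset.sum_congr rfl fun w _ => ip_comm _ _

theorem sn_nonneg (m : ℕ) (u : XS n) : 0 ≤ sn m u := by
  rw [sn_eq]
  exact Finset.sum_nonneg fun w _ => ip_nonneg _

theorem sn_mono {m k : ℕ} (h : m ≤ k) (u : XS n) : sn m u ≤ sn k u := by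
  rw [sn_eq, sn_eq]
  refine Finset.sum_le_sum_of_subset_of_nonneg (fun w hw => ?_) fun w _ _ => ip_nonneg _
  rw [mem_Wle] at hw ⊢
  omega

theorem ip_Wd_le {m : ℕ} {w : List (KK n)} (hw : w.length ≤ m) (u : XS n) :
    ip (Wd w u) (Wd w u) ≤ sn m u := by
  rw [sn_eq]
  exact Finset.single_le_sum (f := fun w => ip (Wd w u) (Wd w u)) (fun w _ => ip_nonneg _)
    (mem_Wle.2 hw)

/-- Cauchy-Schwarz for a positive semidefinite symmetric form -/
theorem cs_bf (m : ℕ) (u v : XS n) : bf m u v ^ 2 ≤ sn m u * sn m v := by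
  have h : ∀ t : ℝ, 0 ≤ sn m v * (t * t) + 2 * bf m u v * t + sn m u := by
    intro t
    have h1 := sn_nonneg m (u + t • v)
    have h2 : sn m (u + t • v) = sn m u + 2 * t * bf m u v + t ^ 2 * sn m v := by
      simp only [sn, map_add, LinearMap.add_apply, map_smul, LinearMap.smul_apply, smul_eq_mul]
      rw [bf_comm m v u]
      ring
    rw [h2] at h1
    nlinarith
  have h2 := discrim_le_zero h
  rw [discrim] at h2
  nlinarith

theorem cs_ip (u v : XS n) : ip u v ^ 2 ≤ ip u u * ip v v := by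
  have h := cs_bf 0 u v
  rwa [bf_zero, sn_zero, sn_zero] at h

theorem sn_neg (m : ℕ) (u : XS n) : sn m (-u) = sn m u := by simp [sn]

theorem sn_smul (m : ℕ) (c : ℝ) (u : XS n) : sn m (c • u) = c ^ 2 * sn m u := by
  simp only [sn, map_smul, LinearMap.smul_apply, smul_eq_mul]
  ring

theorem sn_sub_comm (m : ℕ) (u v : XS n) : sn m (u - v) = sn m (v - u) := by
  rw [← neg_sub, sn_neg]

theorem sn_add_le (m : ℕ) (u v : XS n) : sn m (u + v) ≤ 2 * (sn m u + sn m v) := by
  have h1 : sn m (u + v) + sn m (u - v) = 2 * (sn m u + sn m v) := by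
    simp only [sn, map_add, map_sub, LinearMap.add_apply, LinearMap.sub_apply]
    ring
  linarith [sn_nonneg m (u - v)]

theorem sn_Ld (m : ℕ) (i : KK n) (u : XS n) : sn m (Ld i u) ≤ sn (m + 1) u := by
  rw [sn_eq, sn_eq]
  have h1 : ∑ w ∈ Wle m, ip (Wd w (Ld i u)) (Wd w (Ld i u)) =
      ∑ w ∈ (Wle m).image (fun w => w ++ [i]), ip (Wd w u) (Wd w u) := by
    rw [Finset.sum_image]
    · refine Finset.sum_congr rfl fun w _ => ?_
      rw [Wd_append]
      rfl
    · intro a _ b _ hab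
      exact List.append_cancel_right hab
  rw [h1]
  refine Finset.sum_le_sum_of_subset_of_nonneg (fun w hw => ?_) fun w _ _ => ip_nonneg _
  rw [Finset.mem_image] at hw
  obtain ⟨v, hv, rfl⟩ := hw
  rw [mem_Wle] at hv ⊢
  simp only [List.length_append, List.length_cons, List.length_nil]
  omega

/-- twice the Laplacian of the round metric -/
noncomputable def Lp0 (u : XS n) : XS n := ∑ p, Ld p (Ld p u)

/-- square integrable functions on the unit ball -/
abbrev LL (n : ℕ) : Type := Lp ℝ 2 (volume.restrict (Metric.ball (0 : EE n) 1))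

theorem memLp_val (u : XS n) : MemLp (ext u.1) 2 (volume.restrict (Metric.ball (0 : EE n) 1)) := by
  rw [memLp_two_iff_integrable_sq (integrable_val u).aestronglyMeasurable]
  have h := integrable_val (u * u)
  refine h.congr (ae_of_all _ fun x => ?_)
  change ext (u.1 * u.1) x = ext u.1 x ^ 2
  rw [ext_mul]
  ring

/-- the map from smooth functions to square integrable functions -/
noncomputable def io : XS n →ₗ[ℝ] LL n where
  toFun u := (memLp_val u).toLp (ext u.1)
  map_add' u v := by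
    rw [← MemLp.toLp_add]
    congr 1
    exact ext_add u.1 v.1
  map_smul' c u := by
    rw [RingHom.id_apply, ← MemLp.toLp_const_smul]
    congr 1
    exact ext_smul c u.1

theorem io_apply (u : XS n) : io u = (memLp_val u).toLp (ext u.1) := rfl

/-- A curve `y t`, `t ∈ [0, τ]`, of smooth functions with derivative `y'` in all the Sobolev norms. -/
structure CD (τ : ℝ) (y y' : ℝ → XS n) : Prop where
  bdd : ∀ m, ∃ L, ∀ t ∈ Icc 0 τ, sn m (y t) ≤ L
  cont' : ∀ m, ∀ t ∈ Icc 0 τ, ∀ δ > 0, ∃ η > 0, ∀ s ∈ Icc 0 τ, |s - t| ≤ η →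
    sn m (y' s - y' t) ≤ δ
  der : ∀ m, ∀ t ∈ Icc 0 τ, ∀ δ > 0, ∃ η > 0, ∀ s ∈ Icc 0 τ, |s - t| ≤ η →
    sn m (y s - y t - (s - t) • y' t) ≤ δ * (s - t) ^ 2

/-- A curve of smooth functions continuous on `[0, τ]` in all the Sobolev norms. -/
def CC (τ : ℝ) (y : ℝ → XS n) : Prop :=
  ∀ m, ∀ t ∈ Icc 0 τ, ∀ δ > 0, ∃ η > 0, ∀ s ∈ Icc 0 τ, |s - t| ≤ η → sn m (y s - y t) ≤ δ

end Pool.Agent.Helper36.RN
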