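import Pool.Agent.Helper36.RN.Goals
import Pool.Agent.Helper47.RFn.Fr
import Pool.Agent.Helper47.RFn.FlowN

/-!
# Project RFn, existence part: frames with an independent metric connection

Unknowns: frame `F_a = ∑ A a i e_i`, coframe `θ = A⁻¹` (`θ i c`: `e_i = ∑ θ i c F_c`), connection
`∇_{e_i} F_c = ∑_d w i c d F_d` (`w` antisymmetric in `c, d`), with torsion. `e_i = |x| ∂_i`,
`[e_i, e_j] = n0_i e_j - n0_j e_i`. Everything is defined over a commutative algebra with derivations `e i`.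
`F`: curvature, form indices `i j`, frame indices `c d`; `Ga a c d = ∑ A a i w i c d`; `K a b c d = g(R(F_a,F_b)F_c,F_d)`;
`Sr a c = ∑_b K a b b c` (Ricci tensor if there is no torsion; not symmetrized); `ze` the gauge term;
`T`, `ta` the torsion (form resp. frame indices); `cd1 … cd4` covariant derivative of frame tensors of rank `1 … 4`.
Evolution: `∂_t A = (Sr + ze) A`, `∂_t θ = - θ (Sr + ze)`, `∂_t O = - O ze`,
`∂_t w_i = ∑_a θ i a y3 a + (∇_i ze)`, `y3 a c d = ∑_p ∇_p K p a c d` (`rA`, `rt`, `rO`, `rw`). `sw` is the form of `rw`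
in which it is a parabolic system: `∑ al p k e_p e_k w_i + ` terms with at most first derivatives of `A, w`.
-/

namespace Pool.Agent.Helper36.RN

open Set Filter Topology Pool.Agent.Helper47.RFn


namespace TC

variable {n : ℕ} {𝒜 : Type} [CommRing 𝒜] [Algebra ℝ 𝒜] (e : Ix n → Derivation ℝ 𝒜 𝒜) (n0 : Ix n → 𝒜)
  (A θ : Ix n → Ix n → 𝒜) (w : Ix n → Ix n → Ix n → 𝒜) (O : Ix n → Ix n → 𝒜)

/-- curvature of the connection: form indices `i j`, frame indices `c d` -/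
def F (i j c d : Ix n) : 𝒜 :=
  e i (w j c d) - e j (w i c d) + ∑ f, (w j c f * w i f d - w i c f * w j f d)
    - (n0 i * w j c d - n0 j * w i c d)

/-- `g(∇_{F_a} F_c, F_d)` -/
def Ga (a c d : Ix n) : 𝒜 := ∑ i, A a i * w i c d

/-- `g(R(F_a,F_b)F_c,F_d)` -/
def K (a b c d : Ix n) : 𝒜 := ∑ i, ∑ j, A a i * A b j * F e n0 w i j c d

/-- `∑_b K a b b c` -/
def Sr (a c : Ix n) : 𝒜 := ∑ b, K e n0 A w a b b c

/-- inverse metric -/
def al (k l : Ix n) : 𝒜 := ∑ a, A a k * A a l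

/-- gauge term -/
def ze (c d : Ix n) : 𝒜 := ∑ k, ∑ l, al A k l * e k (w l c d)

/-- torsion, form indices `i j` -/
def T (i j c : Ix n) : 𝒜 :=
  e i (θ j c) - e j (θ i c) + ∑ b, (θ j b * w i b c - θ i b * w j b c) - (n0 i * θ j c - n0 j * θ i c)

/-- torsion in the frame -/
def ta (a b c : Ix n) : 𝒜 := ∑ i, ∑ j, A a i * A b j * T e n0 θ w i j c

/-- covariant derivative in the direction `F_p` -/
def cd1 (p : Ix n) (X : Ix n → 𝒜) (a : Ix n) : 𝒜 := FR.Fd e A p (X a) - ∑ f, Ga A w p a f * X f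

/-- covariant derivative, rank 2 -/
def cd2 (p : Ix n) (X : Ix n → Ix n → 𝒜) (a b : Ix n) : 𝒜 :=
  FR.Fd e A p (X a b) - ∑ f, (Ga A w p a f * X f b + Ga A w p b f * X a f)

/-- covariant derivative, rank 3 -/
def cd3 (p : Ix n) (X : Ix n → Ix n → Ix n → 𝒜) (a b c : Ix n) : 𝒜 :=
  FR.Fd e A p (X a b c) - ∑ f, (Ga A w p a f * X f b c + Ga A w p b f * X a f c + Ga A w p c f * X a b f)

/-- covariant derivative, rank 4 -/
def cd4 (p : Ix n) (X : Ix n → Ix n → Ix n → Ix n → 𝒜) (a b c d : Ix n) : 𝒜 :=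
  FR.Fd e A p (X a b c d) - ∑ f, (Ga A w p a f * X f b c d + Ga A w p b f * X a f c d
    + Ga A w p c f * X a b f d + Ga A w p d f * X a b c f)

/-- cyclic sum of the curvature (vanishes without torsion) -/
def X4 (p a b c : Ix n) : 𝒜 := K e n0 A w p a b c + K e n0 A w a b p c + K e n0 A w b p a c

/-- divergence of the curvature -/
def y3 (a c d : Ix n) : 𝒜 := ∑ p, cd4 e A w p (K e n0 A w) p a c d

/-- `Sr + ze` -/
def Mm (a b : Ix n) : 𝒜 := Sr e n0 A w a b + ze e A w a b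

/-- right side for `A` -/
def rA (a i : Ix n) : 𝒜 := ∑ b, Mm e n0 A w a b * A b i

/-- right side for `θ` -/
def rt (i c : Ix n) : 𝒜 := - ∑ b, θ i b * Mm e n0 A w b c

/-- right side for `O` -/
def rO (a b : Ix n) : 𝒜 := - ∑ c, O a c * ze e A w c b

/-- right side for `w`, geometric form -/
def rw (i c d : Ix n) : 𝒜 :=
  ∑ a, θ i a * y3 e n0 A w a c d + e i (ze e A w c d)
    - ∑ f, (w i c f * ze e A w f d + w i d f * ze e A w c f)

/-- terms without derivatives of `F` -/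
def Gq (k i c d : Ix n) : 𝒜 :=
  ∑ f, (w i c f * w k f d - w k c f * w i f d) - (n0 k * w i c d - n0 i * w k c d)

/-- first derivative part of the right side for `w` -/
def lw (i c d : Ix n) : 𝒜 :=
  ∑ p, ∑ k, al A p k * (n0 i * e p (w k c d) - n0 p * e i (w k c d))
  + ∑ p, ∑ k, al A p k * e p (Gq n0 w k i c d)
  + ∑ p, ∑ k, al A p k * ∑ f, (F e n0 w k i c f * w p f d - w p c f * F e n0 w k i f d)
  + ∑ a, ∑ p, ∑ k, A a p * e p (A a k) * F e n0 w k i c d
  - ∑ a, ∑ f, ∑ p, ∑ k, A a p * w p a f * A f k * F e n0 w k i c d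
  + ∑ p, ∑ k, ∑ a, ∑ l, al A p k * θ i a * e p (A a l) * F e n0 w k l c d
  - ∑ p, ∑ k, ∑ a, ∑ f, ∑ l, al A p k * θ i a * w p a f * A f l * F e n0 w k l c d
  + ∑ k, ∑ l, e i (al A k l) * e k (w l c d)
  - ∑ f, (w i c f * ze e A w f d + w i d f * ze e A w c f)

/-- right side for `w`, system form -/
def sw (i c d : Ix n) : 𝒜 :=
  ∑ p, ∑ k, al A p k * e p (e k (w i c d)) + lw e n0 A θ w i c d

/-- variation of the torsion when `θ`, `w` vary by `rt`, `rw` -/
def dT (i j c : Ix n) : 𝒜 :=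
  e i (rt e n0 A θ w j c) - e j (rt e n0 A θ w i c)
    + ∑ b, (rt e n0 A θ w j b * w i b c + θ j b * rw e n0 A θ w i b c
      - rt e n0 A θ w i b * w j b c - θ i b * rw e n0 A θ w j b c)
    - (n0 i * rt e n0 A θ w j c - n0 j * rt e n0 A θ w i c)

variable {I : Type} [Fintype I] (m : Ix n → I → I → 𝒜)

/-- connection on `I → 𝒜` with coefficients `m` -/
def gD (i : Ix n) (X : I → 𝒜) (α : I) : 𝒜 := e i (X α) + ∑ β, m i α β * X β

/-- a 2-form with values in `I → 𝒜` in the frame -/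
def fr2 (Φ : Ix n → Ix n → I → 𝒜) (a b : Ix n) (α : I) : 𝒜 := ∑ i, ∑ j, A a i * A b j * Φ i j α

/-- covariant derivative of `fr2 Φ` -/
def cdg (Φ : Ix n → Ix n → I → 𝒜) (p a b : Ix n) (α : I) : 𝒜 :=
  FR.Fd e A p (fr2 A Φ a b α) + ∑ i, ∑ β, A p i * m i α β * fr2 A Φ a b β
    - ∑ f, (Ga A w p a f * fr2 A Φ f b α + Ga A w p b f * fr2 A Φ a f α)

/-- radial vector in the coframe -/
def vv (a : Ix n) : 𝒜 := ∑ i, θ i a * n0 i

/-- radial component of the connection -/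
def wr (c d : Ix n) : 𝒜 := ∑ i, n0 i * w i c d

end TC

/-- the derivations `e_i` -/
structure BH {n : ℕ} {𝒜 : Type} [CommRing 𝒜] [Algebra ℝ 𝒜] (e : Ix n → Derivation ℝ 𝒜 𝒜) (n0 : Ix n → 𝒜) :
    Prop where
  ee : ∀ i j f, e i (e j f) - e j (e i f) = n0 i * e j f - n0 j * e i f
  en : ∀ i j, e i (n0 j) = (if i = j then 1 else 0) - n0 i * n0 j
  nn : ∑ i, n0 i ^ 2 = 1
  ne : ∀ f, ∑ i, n0 i * e i f = 0

/-- the algebra `XS n` satisfies the hypotheses -/
theorem bh_XS (n : ℕ) : BH (Ee : Ix n → _) nu := ⟨Ee_comm, Ee_nu, nu_sq, nu_Ee⟩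

/-- frame and coframe are inverse, the connection is metric -/
structure CH {n : ℕ} {𝒜 : Type} [CommRing 𝒜] (A θ : Ix n → Ix n → 𝒜) (w : Ix n → Ix n → Ix n → 𝒜) : Prop where
  At : ∀ a b, ∑ i, A a i * θ i b = if a = b then 1 else 0
  tA : ∀ i j, ∑ a, θ i a * A a j = if i = j then 1 else 0
  anti : ∀ i c d, w i c d = - w i d c

/-- indices of `u = (A, θ, O, ν)` -/
abbrev UI (n : ℕ) : Type := (Ix n × Ix n) ⊕ ((Ix n × Ix n) ⊕ ((Ix n × Ix n) ⊕ Ix n))

/-- indices of `v` (the connection) -/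
abbrev VI (n : ℕ) : Type := Ix n × {p : Ix n × Ix n // p.1 < p.2}

variable {n : ℕ}

/-- the frame -/
def uA (u : UI n → XS n) (a i : Ix n) : XS n := u (Sum.inl (a, i))

/-- the coframe -/
def uth (u : UI n → XS n) (i a : Ix n) : XS n := u (Sum.inr (Sum.inl (i, a)))

/-- the rotation -/
def uO (u : UI n → XS n) (a b : Ix n) : XS n := u (Sum.inr (Sum.inr (Sum.inl (a, b))))

/-- the radial vector (constant in time) -/
def un (u : UI n → XS n) (i : Ix n) : XS n := u (Sum.inr (Sum.inr (Sum.inr i)))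

/-- the antisymmetric connection -/
def vw (v : VI n → XS n) (i c d : Ix n) : XS n :=
  if h : c < d then v (i, ⟨(c, d), h⟩) else if h' : d < c then - v (i, ⟨(d, c), h'⟩) else 0

/-- `e_i = ∑_j ν_j L_ji` with arbitrary `ν` -/
noncomputable def ev (ν : Ix n → XS n) (i : Ix n) : Derivation ℝ (XS n) (XS n) := ∑ j, ν j • Ld (j, i)

/-- A solution of the system on `[0, τ]`. -/
structure FS (τ : ℝ) (A θ O : ℝ → Ix n → Ix n → XS n) (w : ℝ → Ix n → Ix n → Ix n → XS n) : Prop where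
  anti : ∀ t i c d, w t i c d = - w t i d c
  dA : ∀ a i, CD τ (fun t => A t a i) (fun t => TC.rA Ee nu (A t) (w t) a i)
  dt : ∀ i a, CD τ (fun t => θ t i a) (fun t => TC.rt Ee nu (A t) (θ t) (w t) i a)
  dO : ∀ a b, CD τ (fun t => O t a b) (fun t => TC.rO Ee (A t) (w t) (O t) a b)
  dw : ∀ i c d, CD τ (fun t => w t i c d) (fun t => TC.sw Ee nu (A t) (θ t) (w t) i c d)

/-- the algebraic constraints of a solution -/
structure INV (τ : ℝ) (A θ O : ℝ → Ix n → Ix n → XS n) (w : ℝ → Ix n → Ix n → Ix n → XS n) : Prop where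
  ch : ∀ t ∈ Icc 0 τ, CH (A t) (θ t) (w t)
  OO : ∀ t ∈ Icc 0 τ, ∀ a b, ∑ c, O t a c * O t b c = if a = b then 1 else 0
  OO' : ∀ t ∈ Icc 0 τ, ∀ a b, ∑ c, O t c a * O t c b = if a = b then 1 else 0

end Pool.Agent.Helper36.RN
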