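import Pool.Agent.Helper36.RN.Base

/-!
# Project RFn, existence part: analysis on `Sⁿ`, statements of the parts

Read `RN/Base.lean`. `|u|_m = (sn m u)^{1/2}` is the Sobolev norm of order `m` (all words of length `≤ m` in the rotation
fields `Ld p`). This is the general dimension version of `Helper36/RS` (the case of the quaternions); the old
proofs (file names below) can be adapted: `Fin 3` becomes `KK n`, `Ed i` becomes `Ld p`, functions live on `Om n`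
(nonzero vectors), so that all identities in `XS n` are exact; the Sobolev order `4` becomes `n + 1`, `8` becomes
`2 * n + 2`, `12` becomes `2 * n + 6`.
-/

namespace Pool.Agent.Helper36.RN

open Set Filter Topology MeasureTheory Pool.Agent.Helper47.RFn Pool.Agent.Helper36.EV
open scoped ContDiff

/-- WCV (0.8 h): words in the `Ee i` and words in the `Ld p`. PROOF. Induction on the word, for all `u` at the same time:
`Ee i (c * Wd w' u) = Ee i c * Wd w' u + c * ∑ j, nu j * Wd ((j, i) :: w') u` (`Ee_def`, Leibniz), and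
`Ld (i, j) (c * We w' u) = Ld (i, j) c * We w' u + c * nu i * We (j :: w') u - c * nu j * We (i :: w') u` (`Ld_eq`).
Collect the coefficients of each word. (Suggestion: show that the set of linear maps `XS n → XS n` of the form
`u ↦ ∑ w' ∈ Wn _ m, c w' * Wd w' u` is closed under addition, contains `u ↦ c * Wd w' u` for `|w'| ≤ m`, and is mapped by `Ee i`
to the set for `m + 1`.) Third part: We-words of length `≤ k` are bounded pointwise by the Wd-words, from the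
first part and `bdd_val`. -/
def G_WCV : Prop := ∀ n : ℕ,
  (∀ w : List (Fin (n + 1)), ∃ c : List (KK n) → XS n, ∀ u : XS n,
    We w u = ∑ w' ∈ Wn (KK n) w.length, c w' * Wd w' u) ∧
  (∀ w : List (KK n), ∃ c : List (Fin (n + 1)) → XS n, ∀ u : XS n,
    Wd w u = ∑ w' ∈ Wn (Fin (n + 1)) w.length, c w' * We w' u) ∧
  (∀ w : List (Fin (n + 1)), ∃ C, ∀ (u : XS n) (x : Om n),
    (We w u).1 x ^ 2 ≤ C * ∑ w' ∈ Wle w.length, (Wd w' u).1 x ^ 2) ∧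
  (∀ w : List (KK n), ∃ C, ∀ (u : XS n) (x : Om n),
    (Wd w u).1 x ^ 2 ≤ C * ∑ w' ∈ Wn (Fin (n + 1)) w.length, (We w' u).1 x ^ 2)

/-- POL (1.5 h): polynomials. (Old proof for `n = 3`: `Helper67/RS/POL.lean`.) PROOF. `X j = nu j`; `V N` is the
span of the monomials in the `nu j` of degree at most `N` (with `1`). `Ld (i, k) (nu j) = δ_kj nu_i - δ_ij nu_k`
(`Ld_eq`, `Ee_nu`), so `Ld p` maps `V N` to itself (Leibniz) and `Lp0 = 0` on constants. By computation: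
`∑ (nu j)² = 1`, `Lp0 (nu j) = - 2 n nu j`, `∑_p (Ld p nu_j)(Ld p nu_k) = 2 (δ_jk - nu_j nu_k)`, and
`Lp0 (u v) = u Lp0 v + v Lp0 u + 2 ∑_p (Ld p u)(Ld p v)`. By induction on the degree `d` of a monomial `w`:
`Lp0 w = - 2 d (d + n - 1) w + (element of V (d-1))`: for `w' = nu_j w`,
`Lp0 w' = nu_j Lp0 w - 2 n nu_j w + 2 ∑_p (Ld p nu_j)(Ld p w)`, and for `w = ∏ nu_{k_l}` the last sum is
`∑_l 2 (δ_{j k_l} - nu_j nu_{k_l}) ∏_{l' ≠ l} nu_{k_l'} = - 2 d nu_j w +` lower degree;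
`2 d (d + n - 1) + 2 n + 4 d = 2 (d + 1)(d + n)`. Density: Stone-Weierstrass on the unit sphere (the `nu j` separate
points; `u` is determined by its values there). -/
def G_POL : Prop := ∀ n : ℕ, 1 ≤ n → ∃ V : ℕ → Submodule ℝ (XS n), (∀ N, FiniteDimensional ℝ (V N)) ∧
  (∀ N, V N ≤ V (N + 1)) ∧ (∀ v ∈ V 0, Lp0 v = 0) ∧ (∀ N p, ∀ v ∈ V N, Ld p v ∈ V N) ∧
  (∀ N, ∀ v ∈ V (N + 1), Lp0 v + (2 * ((N : ℝ) + 1) * ((N : ℝ) + n)) • v ∈ V N) ∧
  (∀ (u : XS n) (δ : ℝ), 0 < δ → ∃ N, ∃ v ∈ V N, ∀ x, |u.1 x - v.1 x| ≤ δ)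

/-- PRJ (1.5 h): projections onto polynomials. (Old proof: `Helper79/RS/PRJ.lean`.) PROOF. Note
`ip u v = (n + 1) ⟪io u, io v⟫`. `W = (V N).map io` is a finite dimensional subspace of `LL`; let `io (b k)`, `b k ∈ V N`,
be an orthonormal basis of `W`, and `J N h = ∑ ⟪io (b k), h⟫ b k`; so `io (J N h)` is the orthogonal projection of
`h` to `W`. Symmetry, contraction and the last bound are clear (`sn m (b k) < ∞`). Commutation: `a = Ld p (J N (io u))`,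
`b = J N (io (Ld p u))` are in `V N`, and `ip a v = - ip (J N (io u)) (Ld p v) = - ip u (Ld p v) = ip (Ld p u) v = ip b v`
for `v ∈ V N`; so `ip (a - b) (a - b) = 0` and `a = b` (`eq_zero_of_ip`). Error: Claim: if `v ∈ V M` and
`ip v z = 0` for all `z ∈ V N`, then `(N+1)² ip v v ≤ ∑_p ip (Ld p v) (Ld p v) = - ip (Lp0 v) v`. Induction on
`M ≥ N` (`M = N`: `ip v v = 0`, so `v = 0`): for `v ∈ V (M+1)` write `v = v1 + v2`, `v1 = J M (io v) ∈ V M`, `v2 ⟂ V M`,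
`v1 ⟂ V N`. `Lp0 v2 + c v2 ∈ V M`, `c = 2 (M+1)(M+n) ≥ (N+1)²` (`n ≥ 1`), and it is orthogonal to `V M`
(`ip (Lp0 v2) z = ip v2 (Lp0 z) = 0`), so it is `0`, `ip (Lp0 v2) v2 = - c ip v2 v2`, `ip (Lp0 v2) v1 = ip v2 (Lp0 v1) = 0`;
add up. For general `u`: `p_M = J M (io u)`, for `M ≥ N` `p_M - p_N ⟂ V N` is in `V M`, so
`(N+1)^2 ip (p_M - p_N) (p_M - p_N) ≤ ∑ ip (Ld p (p_M - p_N)) (..)` and `Ld p (p_M - p_N) = J M (io e)`,
`e = Ld p u - J N (io (Ld p u))`, of norm `≤ |Ld p u|_0`; let `M → ∞`, `p_M → u` in `L²` by density. -/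
def G_PRJ : Prop := G_POL → ∀ n : ℕ, 1 ≤ n → ∃ J : ℕ → LL n →ₗ[ℝ] XS n,
  (∀ N p u, Ld p (J N (io u)) = J N (io (Ld p u))) ∧
  (∀ N u v, ip (J N (io u)) v = ip u (J N (io v))) ∧
  (∀ N u, ip (J N (io u)) (J N (io u)) ≤ ip u u) ∧
  (∀ N u, ip (J N (io u) - u) (J N (io u) - u) ≤
    (1 / ((N : ℝ) + 1)) ^ 2 * ∑ p, ip (Ld p u) (Ld p u)) ∧
  (∀ N m, ∃ C, ∀ h, sn m (J N h) ≤ C * ‖h‖ ^ 2)

/-- SOB (2 h): Sobolev inequality of order `n + 1`. (Old proof for `n = 3`: `Helper40/RS/SOB.lean`.) PROOF. By homogeneity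
take `‖x‖ = 1/2`. Let `χ` be a smooth radial cut-off, `χ = 1` near `‖y‖ = 1/2`, with support in `1/4 ≤ ‖y‖ ≤ 3/4`, and
`g = χ * ext u`, smooth with compact support on `ℝ^{n+1}`. For smooth compactly supported `g`:
`|g x| ≤ ∫ |∂_0 ∂_1 … ∂_n g|`, by induction over the set `s` of variables with Mathlib's `lmarginal` (as in the
Gagliardo-Nirenberg-Sobolev file): `‖g x‖ₑ ≤ (∫⋯∫⁻_s, ‖∂_s g‖ₑ) x`, because
`|h(x)| ≤ ∫ |∂_i h (update x i t)| dt` for `h` smooth with compact support; for `s = univ` this is the full integral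
(`EE n` and `Fin (n+1) → ℝ` have the same volume: `EuclideanSpace.volume_preserving_..`). Derivatives of `g`: for `φ`
smooth with compact support in `{0}ᶜ` and a word `w`, `∂_j (φ * ext (Wd w u)) = (∂_j φ) * ext (Wd w u) +
∑_i (φ y_i / ‖y‖²) * ext (Wd ((i, j) :: w) u)` (because `∑_i y_i (y_i ∂_j - y_j ∂_i) f = ‖y‖² ∂_j f` for a
`0`-homogeneous `f`, Euler); so `∂_0 … ∂_n g` is a finite sum of `φ_w * ext (Wd w u)`, `|w| ≤ n + 1`, `φ_w` bounded with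
support in the ball, and `∫_ball |ext (Wd w u)| ≤ C (∫_ball |..|²)^{1/2} ≤ C' (sn (n+1) u)^{1/2}`. -/
def G_SOB : Prop := ∀ n : ℕ, ∃ C, ∀ (u : XS n) (x : Om n), u.1 x ^ 2 ≤ C * sn (n + 1) u

/-- CMS (1.2 h): completeness and interpolation. (Old proof: `Helper51/RS/CMS.lean`.) PROOF. (1) By SOB for
`Wd w (x N - x k)` and WCV (third part) the functions `Ew w (ext (x N))` (`We_val`) converge uniformly on `{0}ᶜ`, to `F w`,
continuous and `0`-homogeneous (set `F w 0 = 0`). `Goal_C11` (proved: `Pool.Agent.Helper47.RFn.goal_C11`, module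
`Pool.Agent.Helper7.RFn.C11`) gives `Sm (F [])` and `Ew w (F []) = F w` for `x ≠ 0`; its hypothesis (derivative along
`‖x‖ e_i`) holds for the limit by uniform convergence of the derivatives (`hasDerivAt_of_tendstoUniformly..`). Then
`Wd w (x N) → Wd w y` uniformly (WCV, fourth part), and uniform convergence on the ball (finite measure) gives
convergence of `ip`. (2) for a word `w`, `|w| = k ≤ m`, integrate by parts:
`ip (Wd w u) (Wd w u) = ± ip u (Wd (w.reverse ++ w) u) ≤ (sn 0 u)^{1/2} (sn (2 k) u)^{1/2}`. -/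
def G_CMS : Prop := G_SOB → G_WCV → ∀ n : ℕ,
  (∀ x : ℕ → XS n,
    (∀ m, ∀ δ > 0, ∃ n0, ∀ N ≥ n0, ∀ k ≥ n0, sn m (x N - x k) ≤ δ) →
    ∃ y, ∀ m, Tendsto (fun N => sn m (x N - y)) atTop (𝓝 0)) ∧
  ∀ m, ∃ C, ∀ u : XS n, (sn m u) ^ 2 ≤ C * sn 0 u * sn (2 * m) u

/-- conclusion of SCY: the scale of the spaces `ι → XS n` -/
def R_SCY : Prop := ∀ n : ℕ, 1 ≤ n → ∀ (ι : Type) [Fintype ι],
  ∃ S : Scale (ι → XS n) (ι → LL n), ∀ m y z, S.B m y z = ∑ i, bf m (y i) (z i)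

/-- SCY (0.8 h). (Old proof, with an additional shift: `Helper56/RS/SCY.lean`.) PROOF. `io y = fun i => io (y i)`,
`J N h = fun i => J N (h i)`, `ε N = 1 / (N+1)` up to a constant factor, `B m y z = ∑ i, bf m (y i) (z i)`. With the
commutation of PRJ all statements for `bf m` follow from those for `ip`: `Wd w (J N (io u)) = J N (io (Wd w u))` by
induction on `w`. `errJ`: `∑_{|w| ≤ m} ∑_p ip (Ld p (Wd w u)) (..) ≤ C sn (m+1) u` (each word of length `≤ m + 1` occurs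
at most once). `interp`: `(∑_i a_i)² ≤ |ι| ∑ a_i²`, CMS (2). -/
def G_SCY : Prop := G_PRJ → G_POL → G_SOB → G_WCV → G_CMS → R_SCY

/-- conclusion of PRSA -/
def R_PRSA : Prop := ∀ n : ℕ,
  (∀ k ≥ 2 * n + 6, ∃ C, ∀ u v : XS n, sn k (u * v) ≤ C * (sn k u * sn (k - 2) v + sn (k - 2) u * sn k v)) ∧
  (∀ k, ∃ C, ∀ u v : XS n, sn k (u * v) ≤ C * (sn (k + n + 1) u * sn k v)) ∧
  (∀ k ≥ 2 * n + 6, ∃ C, ∀ w : List (KK n), w.length ≤ k → ∀ a v : XS n,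
    ip (Wd w (a * v) - a * Wd w v) (Wd w (a * v) - a * Wd w v) ≤
      C * (sn k a * sn (k - 2) v + sn (k - 2) a * sn (k - 1) v)) ∧
  (∀ k ≥ 2 * n + 2, ∃ C, ∀ u v : XS n, sn k (u * v) ≤ C * (sn k u * sn k v))

/-- PRSA (1.2 h): products. (Old proof: `Helper42/RS/PRSA.lean`; the third part is slightly sharper now.)
PROOF. Leibniz: `Wd w (u v)` is the sum over the subwords `w'` of `w` (with complementary subword `w''`) of
`Wd w' u * Wd w'' v` (induction). One of the two subwords, say `w'`, has length `≤ k/2` and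
`sup |Wd w' u| ≤ C |u|_{k/2 + n + 1}` (SOB for `Wd w' u`). (a) `k/2 + n + 1 ≤ k - 2` for `k ≥ 2n + 6`; (b)
`sup |Wd w' u| ≤ C |u|_{k+n+1}` for all `w'`; (d) `k/2 + n + 1 ≤ k` for `k ≥ 2n + 2`. (c) the term `w' = []` is
subtracted, so `|w''| ≤ k - 1`; if `|w'| ≤ k/2` then `sup |Wd w' a| ≤ C |a|_{k-2}`, `|Wd w'' v|_0 ≤ |v|_{k-1}`, otherwise
`|w''| ≤ k/2`, `sup |Wd w'' v| ≤ C |v|_{k/2+n+1} ≤ C |v|_{k-2}`, `|Wd w' a|_0 ≤ |a|_k`. -/
def G_PRSA : Prop := G_SOB → R_PRSA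

/-- PRSB (0.8 h): commutators, moving a derivative. (Old proof: `Helper90/RS/PRSB.lean`.) PROOF. First part: induction
on `w` with `Ld q (Ld p z) = Ld p (Ld q z) + ∑ cs q p r Ld r z` (`comm`): `Wd w (Ld p u) - Ld p (Wd w u)` is a combination
with constant coefficients of `Wd w' u`, `|w'| ≤ |w|`. Second, third part: term by term: for `w = []`,
`ip u (Ld p v) = - ip (Ld p u) v`, resp. `ip u v ≤ |u|_0 |v|_0`; for `w = q :: w'`:
`ip (Ld q (Wd w' u)) (Ld q (Wd w' v')) = - ip (Ld q (Ld q (Wd w' u))) (Wd w' v')`, first factor a word of length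
`|w| + 1 ≤ m + 1`, second a word of length `|w'| ≤ m - 1` of `v' = Ld p v` resp. `v' = v`. -/
def G_PRSB : Prop := ∀ n : ℕ,
  (∀ k, ∃ C, ∀ w : List (KK n), w.length ≤ k → ∀ p (u : XS n),
    ip (Wd w (Ld p u) - Ld p (Wd w u)) (Wd w (Ld p u) - Ld p (Wd w u)) ≤ C * sn k u) ∧
  (∀ m, ∃ C, ∀ p (u v : XS n), (bf m u (Ld p v)) ^ 2 ≤ C * (sn (m + 1) u * sn m v)) ∧
  (∀ m ≥ 1, ∃ C, ∀ u v : XS n, (bf m u v) ^ 2 ≤ C * (sn (m + 1) u * sn (m - 1) v))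

/-- ellipticity on gradients of the coefficients `a` -/
def EllA {n : ℕ} (lam : ℝ) (a : KK n → KK n → XS n) : Prop :=
  ∀ (f : XS n) (x : Om n), lam * ∑ p, (Ld p f).1 x ^ 2 ≤
    ∑ p, ∑ q, (a p q).1 x * (Ld p f).1 x * (Ld q f).1 x

/-- conclusion of ELL -/
def R_ELL : Prop := ∀ n : ℕ, ∀ m ≥ 2 * n + 6, ∀ lam > 0, ∀ L, ∃ C, 0 ≤ C ∧
  ∀ (a : KK n → KK n → XS n) (v : XS n), (∀ p q, sn (m - 1) (a p q) ≤ L) → sn (m - 1) v ≤ L →
    EllA lam a →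
    bf m v (∑ p, Ld p (∑ q, a p q * Ld q v)) ≤
      - (lam / 2) * sn (m + 1) v + C * (sn m v + ∑ p, ∑ q, sn m (a p q))

/-- ELL (1.5 h): elliptic energy estimate. (Old proof: `Helper57/RS/ELL.lean`; new: only `sn (m - 1) a ≤ L` and
`sn (m - 1) v ≤ L` are assumed, ellipticity only on gradients.)
PROOF. Let `f_p = ∑_q a p q * Ld q v`. For a word `w`, `|w| ≤ m`:
`ip (Wd w v) (Wd w (Ld p f_p)) = ip (Wd w v) (Ld p (Wd w f_p)) + ip (Wd w v) (K f_p)`, where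
`K f_p = Wd w (Ld p f_p) - Ld p (Wd w f_p)`, `|K f_p|_0 ≤ C |f_p|_m` (PRSB), and
`|f_p|_m² ≤ C (|a|_m² |Ld v|_{m-2}² + |a|_{m-2}² |Ld v|_m²) ≤ C(L) (|a|_m² + |v|_{m+1}²)` by PRSA (a). The first term is
`- ip (Ld p (Wd w v)) (Wd w f_p)`, and
`Wd w (a Ld q v) = a Ld q (Wd w v) + a (Wd w (Ld q v) - Ld q (Wd w v)) + (Wd w (a Ld q v) - a Wd w (Ld q v))`, where the
second summand has norm `≤ C(L) |v|_m` (PRSB, `sup |a| ≤ C |a|_{n+1}`, `n + 1 ≤ m - 1`) and the third, by PRSA (c) with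
`k = m`, norm² `≤ C (|a|_m² |Ld q v|_{m-2}² + |a|_{m-2}² |Ld q v|_{m-1}²) ≤ C(L) (|a|_m² + |v|_m²)`. So the sum over `p`
of these terms is `≤ - ∫ ∑ a p q Ld p (Wd w v) Ld q (Wd w v) + C(L) |v|_{m+1} (|v|_m + |a|_m) ≤
- lam ∑_p ip (Ld p (Wd w v)) (Ld p (Wd w v)) + …` (`EllA` for `f = Wd w v`). Sum over `w`:
`sn (m+1) v ≤ sn m v + ∑_{|w| ≤ m} ∑_p ip (Ld p (Wd w v)) (..)`. Finally absorb `|v|_{m+1}` by Cauchy's inequality. -/
def G_ELL : Prop := G_SOB → R_PRSA → G_PRSB → R_ELL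

/-- conclusion of MVP -/
def R_MVP : Prop := ∀ (n : ℕ) (Z : Type) [Fintype Z] (p : MvPolynomial Z ℝ),
  (∀ k ≥ 2 * n + 6, ∀ L, ∃ C, ∀ z : Z → XS n, (∀ i, sn (k - 2) (z i) ≤ L) →
    sn k (MvPolynomial.aeval z p) ≤ C * (1 + ∑ i, sn k (z i))) ∧
  (∀ k L, ∃ C, ∀ z z' : Z → XS n, (∀ i, sn (k + 2 * n + 2) (z i) ≤ L) →
    (∀ i, sn (k + 2 * n + 2) (z' i) ≤ L) →
    sn k (MvPolynomial.aeval z p - MvPolynomial.aeval z' p) ≤ C * ∑ i, sn k (z i - z' i)) ∧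
  (∀ k ≥ 2 * n + 2, ∀ L, ∃ C, ∀ z : Z → XS n, (∀ i, sn k (z i) ≤ L) →
    sn k (MvPolynomial.aeval z p) ≤ C)

/-- MVP (0.8 h): polynomial expressions. (Old proof: `Helper83/RS/MVP.lean`.) PROOF. Induction on the polynomial
(`MvPolynomial.induction_on`: constants, sums, `p * X i`). (3) from PRSA (d) (`k ≥ 2n + 2`). (1) from PRSA (a): for
`p * X i`, `sn k (p(z) z_i) ≤ C (sn k (p z) sn (k-2) (z i) + sn (k-2) (p z) sn k (z i))` and `sn (k-2) (p z) ≤ C(L)` by (3)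
at order `k - 2 ≥ 2n + 4`. (2) `p(z) z_i - p(z') z'_i = (z_i - z'_i) p(z) + z'_i (p(z) - p(z'))`, PRSA (b) with `u` the
bounded factor (`sn (k+n+1) (p z) ≤ sn (k+2n+2) (p z) ≤ C(L)` by (3)). -/
def G_MVP : Prop := R_PRSA → R_MVP

/-- TEL (0.3 h): telescoping. PROOF. Induction on the polynomial. Constants: `g = 0`. Sums: add. `p * X i`:
`p(z) z_i - p(z') z'_i = (p(z) - p(z')) z_i + p(z') (z_i - z'_i)`: new `g a = (g a) * X (inl i) + [a = i] (p in the variables inr)`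
(`MvPolynomial.rename Sum.inr p`). -/
def G_TEL : Prop := ∀ (Z : Type) [Fintype Z] (p : MvPolynomial Z ℝ),
  ∃ g : Z → MvPolynomial (Z ⊕ Z) ℝ, ∀ (R : Type) [CommRing R] [Algebra ℝ R] (z z' : Z → R),
    MvPolynomial.aeval z p - MvPolynomial.aeval z' p =
      ∑ a, MvPolynomial.aeval (Sum.elim z z') (g a) * (z a - z' a)

/-- conclusion of CV -/
def R_CV : Prop := ∀ (n : ℕ) (τ : ℝ) (y y' : ℝ → XS n), CD τ y y' →
  SmFam1 (Icc 0 τ) (fun t => ext (y t).1) (fun t => ext (y' t).1)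

/-- CV (0.8 h): from convergence in all the Sobolev norms to smooth families. (Old proof: `Helper61/RS/CV.lean`.)
PROOF. SOB for `Wd w` of differences and WCV (third part), `We_val`:
`|Ew w (ext (y s)) x - Ew w (ext (y t)) x|² ≤ C sn (|w| + n + 1) (y s - y t)` etc. Joint continuity at `(t, x)`:
`|Ew w (y s) z - Ew w (y t) x| ≤ sup |Ew w (y s - y t)| + |Ew w (y t) z - Ew w (y t) x|`; `y` is continuous in all norms
by `der` and a bound of `sn m (y' t)`. -/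
def G_CV : Prop := G_SOB → G_WCV → R_CV

/-- conclusion of SFC -/
def R_SFC : Prop := ∀ (n : ℕ) (T : ℝ) (y : ℝ → XS n),
  SmFam (Icc 0 T) (fun t => ext (y t).1) → CC T y

/-- SFC (0.7 h): smooth families are continuous in all the Sobolev norms. (Old proof: inside
`Helper14/RS/LAS.lean`.) PROOF. On the compact set `[0, T] × {|x| = 1}` the functions `Ew w (ext (y t)) x` are uniformly
continuous, so `sup_x |We w (y s - y t)| → 0` as `s → t` (homogeneity: it is enough to take `|x| = 1`), WCV (fourth part) gives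
the same for `Wd w`, and `ip f f ≤ (n + 1) vol(ball) sup |f|²`. -/
def G_SFC : Prop := G_WCV → R_SFC

/-- conclusion of CDA: rules for `CD` and `CC` -/
def R_CDA : Prop := ∀ (n : ℕ) (τ : ℝ),
  (∀ f : XS n, CD τ (fun _ => f) (fun _ => 0)) ∧
  (∀ y y' z z' : ℝ → XS n, CD τ y y' → CD τ z z' → CD τ (fun t => y t + z t) (fun t => y' t + z' t)) ∧
  (∀ y y' z z' : ℝ → XS n, CD τ y y' → CD τ z z' → CD τ (fun t => y t - z t) (fun t => y' t - z' t)) ∧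
  (∀ y y' z z' : ℝ → XS n, CD τ y y' → CD τ z z' →
    CD τ (fun t => y t * z t) (fun t => y' t * z t + y t * z' t)) ∧
  (∀ y y' : ℝ → XS n, CD τ y y' → CD τ (fun t => - y t) (fun t => - y' t)) ∧
  (∀ (c : ℝ) (y y' : ℝ → XS n), CD τ y y' → CD τ (fun t => c • y t) (fun t => c • y' t)) ∧
  (∀ (p : KK n) (y y' : ℝ → XS n), CD τ y y' → CD τ (fun t => Ld p (y t)) (fun t => Ld p (y' t))) ∧
  (∀ (i : Fin (n + 1)) (y y' : ℝ → XS n), CD τ y y' →
    CD τ (fun t => Ee i (y t)) (fun t => Ee i (y' t))) ∧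
  (∀ (ι : Type) (s : Finset ι) (y y' : ι → ℝ → XS n), (∀ i ∈ s, CD τ (y i) (y' i)) →
    CD τ (fun t => ∑ i ∈ s, y i t) (fun t => ∑ i ∈ s, y' i t)) ∧
  (∀ y y' z' : ℝ → XS n, CD τ y y' → (∀ t ∈ Icc 0 τ, y' t = z' t) → CD τ y z') ∧
  (∀ y z y' : ℝ → XS n, CD τ y y' → (∀ t ∈ Icc 0 τ, y t = z t) → CD τ z y') ∧
  (∀ y y' : ℝ → XS n, CD τ y y' → CC τ y ∧ CC τ y') ∧
  (∀ f : XS n, CC τ (fun _ => f)) ∧
  (∀ y z : ℝ → XS n, CC τ y → CC τ z → CC τ (fun t => y t + z t)) ∧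
  (∀ y z : ℝ → XS n, CC τ y → CC τ z → CC τ (fun t => y t - z t)) ∧
  (∀ y z : ℝ → XS n, CC τ y → CC τ z → CC τ (fun t => y t * z t)) ∧
  (∀ y : ℝ → XS n, CC τ y → CC τ (fun t => - y t)) ∧
  (∀ (c : ℝ) (y : ℝ → XS n), CC τ y → CC τ (fun t => c • y t)) ∧
  (∀ (p : KK n) (y : ℝ → XS n), CC τ y → CC τ (fun t => Ld p (y t))) ∧
  (∀ (i : Fin (n + 1)) (y : ℝ → XS n), CC τ y → CC τ (fun t => Ee i (y t))) ∧
  (∀ (ι : Type) (s : Finset ι) (y : ι → ℝ → XS n), (∀ i ∈ s, CC τ (y i)) →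
    CC τ (fun t => ∑ i ∈ s, y i t)) ∧
  (∀ y z : ℝ → XS n, CC τ y → (∀ t ∈ Icc 0 τ, y t = z t) → CC τ z) ∧
  (∀ y : ℝ → XS n, CC τ y → ∀ m, ∃ L, ∀ t ∈ Icc 0 τ, sn m (y t) ≤ L) ∧
  (∀ y : ℝ → XS n, CC τ y → ∃ K, ∀ t ∈ Icc 0 τ, ∀ x, |(y t).1 x| ≤ K)

/-- CDA (1.3 h). PROOF. Norm of order `M ≥ m`, `M ≥ 2n + 2`, and `sn m ≤ sn M`; products by PRSA (d):
`y_s z_s - y_t z_t - (s-t)(y'_t z_t + y_t z'_t) = (y_s - y_t - (s-t) y'_t) z_s + y_t (z_s - z_t - (s-t) z'_t)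
+ (s-t) y'_t (z_s - z_t)`, `sn_add_le`, `sn_smul`. `Ld p`: `sn_Ld`. `Ee i f = ∑ j, nu j * Ld (j, i) f` (`Ee_def`): product with a
constant curve. Continuity of `y` from `der`: `|y_s - y_t| ≤ |y_s - y_t - (s-t) y'_t| + |s-t| |y'_t|`. Bounds on `[0, τ]`
for continuous curves: compactness of `[0, τ]` (finite subcover); sup bound from SOB. -/
def G_CDA : Prop := G_SOB → R_PRSA → R_CDA

/-- conclusion of ENB -/
def R_ENB : Prop := ∀ (n : ℕ) (ν μ : Type) [Fintype ν] [Fintype μ] (τ κ : ℝ) (k : μ → Fin (n + 1) → ν → ℝ)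
  (N N' : ν → ℝ → XS n) (X : μ → ℝ → XS n) (A : Fin (n + 1) → Fin (n + 1) → ℝ → XS n)
  (c1 : ν → μ → ℝ → XS n) (c2 : ν → ν → ℝ → XS n) (c3 : μ → ν → ℝ → XS n), 0 < κ →
  (∀ i, CD τ (N i) (N' i)) → (∀ j, CC τ (X j)) → (∀ a l, CC τ (A a l)) →
  (∀ i j, CC τ (c1 i j)) → (∀ i j, CC τ (c2 i j)) → (∀ i j, CC τ (c3 i j)) →
  (∀ t ∈ Icc 0 τ, ∀ i, N' i t = κ • ∑ j, ∑ a, k j a i • ∑ l, A a l t * Ee l (X j t)
    + ∑ j, c1 i j t * X j t + ∑ j, c2 i j t * N j t) →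
  (∀ t ∈ Icc 0 τ, ∀ j, X j t = ∑ i, ∑ a, k j a i • ∑ l, A a l t * Ee l (N i t)
    + ∑ i, c3 j i t * N i t) →
  (∀ i, N i 0 = 0) → ∀ t ∈ Icc 0 τ, ∀ i, N i t = 0

/-- ENB (1.5 h): the energy argument. (Model: `Helper74/RI/ENB.lean`, but now everything is in terms of `CD`, no
differentiation under the integral.) PROOF. `e t = ∑_i ip (N i t) (N i t)` has the derivative `2 ∑ ip (N i t) (N' i t)`
within `[0, τ]` (from `CD.der` of order `0` and Cauchy-Schwarz; cf. `EV` packet PROD). Integration by parts: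
`ip u (a * Ee l v) = - ip (a * Ee l u) v - ip (u * Ee l a) v + n * ip (u * a * nu l) v` (`Ee_def`, `ibp`,
`∑_j Ld (j, l) (nu j) = - n nu l`). So with `k` real and `∑_i ∑_a k j a i ∑_l A a l Ee l (N i) = X j - ∑ c3 N`:
`∑_i ip (N i) (N' i) ≤ - κ ∑_j |X j|² + C ∑ |X j| |N i| + C ∑ |N i|² ≤ C' e`, where all coefficients (and `Ee l (A a l)`)
are bounded (`R_CDA`, last parts; `|ip (c u) v| ≤ sup |c| |u| |v|`). `e 0 = 0`, Gronwall: `e = 0`, `eq_zero_of_ip`. -/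
def G_ENB : Prop := R_CDA → R_ENB

/-- data of a mixed system: `∂_t u_i = G_i(u, v, Lv)`,
`∂_t v_j = ∑_p L_p (∑_q α_pq(u) L_q v_j + β_pj(u, v)) + W_j(u, v, Lv, Lu)`, all polynomials -/
structure QLD (n : ℕ) (I J : Type) where
  G : I → MvPolynomial ((I ⊕ J) ⊕ (KK n × J)) ℝ
  α : KK n → KK n → MvPolynomial I ℝ
  β : KK n → J → MvPolynomial (I ⊕ J) ℝ
  W : J → MvPolynomial (((I ⊕ J) ⊕ (KK n × J)) ⊕ (KK n × I)) ℝ

variable {n : ℕ} {I J : Type}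

/-- the jet `(u, v, Lv)` -/
noncomputable def zj (u : I → XS n) (v : J → XS n) : (I ⊕ J) ⊕ (KK n × J) → XS n :=
  Sum.elim (Sum.elim u v) (fun p => Ld p.1 (v p.2))

/-- the jet `(u, v, Lv, Lu)` -/
noncomputable def zj' (u : I → XS n) (v : J → XS n) :
    ((I ⊕ J) ⊕ (KK n × J)) ⊕ (KK n × I) → XS n :=
  Sum.elim (zj u v) (fun p => Ld p.1 (u p.2))

/-- right side for `u` -/
noncomputable def QLD.FI (D : QLD n I J) (u : I → XS n) (v : J → XS n) (i : I) : XS n :=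
  MvPolynomial.aeval (zj u v) (D.G i)

/-- right side for `v` -/
noncomputable def QLD.FJ (D : QLD n I J) (u : I → XS n) (v : J → XS n) (j : J) : XS n :=
  ∑ p, Ld p ((∑ q, MvPolynomial.aeval u (D.α p q) * Ld q (v j)) +
    MvPolynomial.aeval (Sum.elim u v) (D.β p j)) + MvPolynomial.aeval (zj' u v) (D.W j)

/-- right side -/
noncomputable def QLD.FF (D : QLD n I J) (y : I ⊕ J → XS n) : I ⊕ J → XS n :=
  Sum.elim (D.FI (fun i => y (Sum.inl i)) fun j => y (Sum.inr j))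
    (D.FJ (fun i => y (Sum.inl i)) fun j => y (Sum.inr j))

/-- squared norm of order `m` -/
noncomputable def qq [Fintype I] [Fintype J] (m : ℕ) (y : I ⊕ J → XS n) : ℝ := ∑ i, sn m (y i)

/-- form of order `m` -/
noncomputable def bb [Fintype I] [Fintype J] (m : ℕ) (y z : I ⊕ J → XS n) : ℝ :=
  ∑ i, bf m (y i) (z i)

/-- ellipticity (on gradients) of `α(u)` for `u` uniformly close to `u0` -/
def QLD.Ell (D : QLD n I J) (u0 : I → XS n) (lam ρ : ℝ) : Prop :=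
  ∀ u : I → XS n, (∀ i x, |(u i).1 x - (u0 i).1 x| ≤ ρ) →
    EllA lam (fun p q => MvPolynomial.aeval u (D.α p q))

/-- conclusion of QF3 -/
def R_QF3 : Prop := ∀ (n : ℕ) (I J : Type) [Fintype I] [Fintype J] (D : QLD n I J) (u0 : I → XS n)
  (lam ρ : ℝ), 0 < lam → D.Ell u0 lam ρ → ∀ m ≥ 2 * n + 7, ∀ L, ∃ C, 0 ≤ C ∧
    ∀ y : I ⊕ J → XS n, (∀ i x, |(y (Sum.inl i)).1 x - (u0 i).1 x| ≤ ρ) → qq (m - 1) y ≤ L →
      bb m y (D.FF y) ≤ C * (1 + qq m y)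

/-- QF3 (1.2 h): energy estimate of the mixed system. (Model: `Helper14/RS/QF3.lean`.)
PROOF. Let `qq (m-1) y ≤ L`, `m ≥ 2n + 7`. (i) `u`-part: `bf m (u i) (G_i) ≤ |u_i|_m |G_i(u, v, Lv)|_m`, MVP (1) with
`k = m` (`k - 2 = m - 2`: the jet `(u, v, Lv)` is bounded in this order): `|G_i|_m² ≤ C(L) (1 + ∑ |u|²_m + ∑ |v|²_{m+1})`.
(ii) main part of `v_j`: `a p q = α_pq(u)`, `sn (m-1) (a p q) ≤ C(L)` by MVP (3), `sn m (a p q) ≤ C(L) (1 + |u|_m²)` by MVP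
(1), ELL: `≤ -(lam/2) |v_j|²_{m+1} + C (|v_j|²_m + |u|_m² + 1)`. (iii) `β`: PRSB (2):
`bf m (v j) (Ld p β) ≤ C |v_j|_{m+1} |β|_m`, MVP (1): `|β|_m² ≤ C(L) (1 + |u|²_m + |v|²_m)`. (iv) `W`: PRSB (3):
`bf m (v j) W ≤ C |v_j|_{m+1} |W|_{m-1}`, MVP (1) with `k = m - 1 ≥ 2n + 6` for the jet `(u, v, Lv, Lu)`, whose orders
`m - 3` are bounded: `|W|²_{m-1} ≤ C(L) (1 + |u|²_m + |v|²_m)`. Sum up, and absorb `|v|_{m+1}` by Cauchy's inequality in
`-(lam/2) ∑ |v_j|²_{m+1}`. -/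
def G_QF3 : Prop := G_SOB → R_PRSA → G_PRSB → R_ELL → R_MVP → R_QF3

/-- conclusion of QF4 -/
def R_QF4 : Prop := ∀ (n : ℕ) (I J : Type) [Fintype I] [Fintype J] (D : QLD n I J) (u0 : I → XS n)
  (lam ρ : ℝ), 0 < lam → D.Ell u0 lam ρ → ∀ L, ∃ C, ∀ y y' : I ⊕ J → XS n,
    (∀ i x, |(y (Sum.inl i)).1 x - (u0 i).1 x| ≤ ρ) →
    (∀ i x, |(y' (Sum.inl i)).1 x - (u0 i).1 x| ≤ ρ) →
    qq (2 * n + 6) y ≤ L → qq (2 * n + 6) y' ≤ L →
    bb 0 (y - y') (D.FF y - D.FF y') ≤ C * qq 0 (y - y')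

/-- QF4 (1.5 h): difference estimate in `L²`. (Model: `Helper8/RS/QF4.lean`.) PROOF. `δ = y - y'`. All functions
`u, v, Lu, Lv, LLu, LLv` (and the same for `y'`) are bounded by `C(L)` in the sup norm (SOB, order `n + 3 ≤ 2n + 6`).
`u`-part: `|δG|_0 ≤ C (|δu|_0 + |δv|_0 + ∑ |L_p δv|_0)` (TEL, bounded coefficients), so
`ip δu (δG) ≤ ε |Lδv|_0² + C_ε (|δu|_0² + |δv|_0²)`. `v`-part: `ip (δv_j) (Ld p (δV_p)) = - ip (Ld p δv_j) (δV_p)`,
`δV_p = ∑_q α_pq(u) Ld q (δv_j) + ∑_q (α_pq(u) - α_pq(u')) Ld q v'_j + δβ`; the first sum gives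
`≤ - lam ∑ |Ld p δv_j|_0²` (`EllA` for `f = δv_j`), the others have `L²` norm `≤ C (|δu|_0 + |δv|_0)`. `W`: by TEL
`δW = ∑_a g_a(z, z') (z_a - z'_a)`, `z` the jet `(u, v, Lv, Lu)`. The terms with `z_a = u_i, v_j, Ld p v_j` are bounded in
`L²` by `C (|δu|_0 + |δv|_0 + |Lδv|_0)`; for `z_a = Ld p u_i` integrate by parts:
`ip (δv_j) (g Ld p δu_i) = - ip (Ld p (δv_j) g + δv_j Ld p g) (δu_i) ≤ C (|Lδv|_0 + |δv|_0) |δu|_0`, because `g` and
`Ld p g` are bounded in the sup norm (`Ld p` of a polynomial in the jet is a polynomial in the second jet; or: `g` is in a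
bounded set of order `n + 2` by MVP (3), `n + 2 + 1 ≤ ..`: use MVP (3) at order `2n + 5 ≥ max (2n + 2) (n + 2)` and SOB for
`Ld p g`). Absorb `|Lδv|_0²` in `- lam ∑ |Ld p δv_j|_0²`. -/
def G_QF4 : Prop := G_SOB → R_PRSA → R_MVP → G_TEL → R_QF4

/-- conclusion of QF1 -/
def R_QF1 : Prop := ∀ (n : ℕ) (I J : Type) [Fintype I] [Fintype J] (D : QLD n I J), ∀ m L, ∃ C,
  ∀ y y' : I ⊕ J → XS n, qq (m + 2 * n + 4) y ≤ L → qq (m + 2 * n + 4) y' ≤ L →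
    qq m (D.FF y - D.FF y') ≤ C * qq (m + 2) (y - y')

/-- QF1 (0.8 h): Lipschitz estimate with loss of derivatives. (Old proof: `Helper61/RS/QF1.lean`.) PROOF. MVP (2):
`u`-components with `k = m` for the jet `(u, v, Lv)` (`sn (m + 2n + 2) (Ld q v) ≤ sn (m + 2n + 3) v`); `v`-components:
`sn m (Ld p f) ≤ sn (m+1) f`, `f = α(u) Ld q v + β(u, v)` is a polynomial in the jet `(u, v, Lv)`, MVP (2) with `k = m + 1`
(bounds of order `m + 2n + 3` of the jet); `sn (m+1) (Ld q v) ≤ sn (m+2) v`; `W`: `k = m`. -/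
def G_QF1 : Prop := R_MVP → R_QF1

/-- local existence for mixed systems -/
def G_QL : Prop := ∀ n : ℕ, 1 ≤ n → ∀ (I J : Type) [Fintype I] [Fintype J] (D : QLD n I J)
  (u0 : I → XS n) (v0 : J → XS n) (lam ρ : ℝ), 0 < lam → 0 < ρ → D.Ell u0 lam ρ →
  ∃ τ > 0, ∃ (u : ℝ → I → XS n) (v : ℝ → J → XS n), u 0 = u0 ∧ v 0 = v0 ∧
    (∀ i, CD τ (fun t => u t i) (fun t => D.FI (u t) (v t) i)) ∧
    (∀ j, CD τ (fun t => v t j) (fun t => D.FJ (u t) (v t) j))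

/-- QAS (1.5 h): assembly of the local existence theorem from the abstract theorem `EV.G_MAIN'`. (Old proof:
`Helper14/RS/QAS.lean`.) PROOF. `S` from SCY; `Evo S`: `F t = D.FF`, start `y0 = (u0, v0)`, `s = 2n + 7`, `m0 = n + 1`,
`m4 = 2n + 6`, `R = 2 (1 + q s y0)`, `r` so small that `q (n+1) (y - y0) ≤ r` implies `|u_i - u0_i| ≤ ρ` (SOB), `C1` from
QF3 with `m = s`, `L = R` (`q (s-1) ≤ q s`), `C2`: if `q s y ≤ R` then `q (n+1) (FF y) ≤ C2`: MVP (3) at order `2n + 2` (and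
`2n + 5`, `2n + 6`): the jets of `y` of order `2n + 6` are bounded, `G`, `W` are bounded in order `2n + 6`, and
`sn (2n + 5) (Ld p f) ≤ sn (2n + 6) f`, `f = α(u) Lv + β` a polynomial in the jet `(u, v, Lv)`, whose order `2n + 6` is
bounded by `q (2n + 7) y`. `τ` small for `small`, `small'`, `T = τ`. `F3` from QF3, `F4` from QF4, `F0`, `F1`, `F2` from QF1
(with `y' = 0` for `F1`, `FF 0` is a constant vector). `F0`: in `S.Lim` both sequences are bounded. The solution of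
`EV.G_MAIN'` satisfies `CD` (`bdd`, `der` from `IsSol`, `cont'` from continuity of `y` in all norms and QF1). -/
def G_QAS : Prop := Pool.Agent.Helper36.EV.G_MAIN' → G_SOB → R_MVP → R_SCY → R_QF3 → R_QF4 →
  R_QF1 → G_QL

/-- linear parabolic equation on the whole time interval -/
def G_LIN : Prop := ∀ n : ℕ, 1 ≤ n → ∀ (T lam : ℝ) (a : KK n → KK n → ℝ → XS n) (b : KK n → ℝ → XS n)
  (f : XS n), 0 < T → 0 < lam → (∀ p q, CC T (a p q)) → (∀ p, CC T (b p)) →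
  (∀ t ∈ Icc 0 T, EllA lam (fun p q => a p q t)) →
  ∃ u : ℝ → XS n, u 0 = f ∧
    CD T u (fun t => ∑ p, ∑ q, a p q t * Ld p (Ld q (u t)) + ∑ p, b p t * Ld p (u t))

/-- LAS (1.2 h): the linear equation from the abstract theorem. (Old proof: `Helper14/RS/LAS.lean`.)
PROOF. `S` from SCY with `ι = Unit`; `F t u = ∑ a p q Ld p (Ld q u) + ∑ b p Ld p u
= ∑ Ld p (∑ a p q Ld q u) + ∑ (b q - ∑_p Ld p (a p q)) Ld q u`. Bounds of the coefficients: `CC` and compactness (`R_CDA`):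
`sn m (a p q t), sn m (b p t) ≤ L_m` for `t ∈ [0, T]`. Energy, all `m ≥ 2n + 6`: the estimate for the first sum as in ELL, but
without the assumption `sn (m-1) v ≤ L`: since ELL is homogeneous of degree 2 apart from `∑ sn m a`, apply it to
`v / (1 + |v|_{m-1})`, i.e. for `c = (1 + sn (m-1) v)^{-1/2}`: `sn (m-1) (c v) ≤ 1`, so
`bf m v (..) = c^{-2} bf m (c v) (..) ≤ - (lam/2) sn (m+1) v + C (sn m v + (1 + sn (m-1) v) L')`; PRSB (3) and PRSA (a) for the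
rest: `B m u (F t u) ≤ C_m (1 + q m u)`. `s = 2n + 6`, `m0 = 0`, `m4 = 0`, `C1 = C_s`, `R` with
`exp (2 C1 T) (1 + q s f) < 1 + R`, `C2` a bound of `q 0 (F t u)` for `q s u ≤ R`, `r = C2 T² + 1`, `τ = T`. `F4`:
`F` is linear, `ip w (F t w) ≤ - lam |Lw|² + C |w|_0 |Lw|_0 ≤ C' |w|_0²`. `F0`: `CC`. -/
def G_LAS : Prop := Pool.Agent.Helper36.EV.G_MAIN' → G_SOB → R_PRSA → G_PRSB → R_ELL → R_CDA →
  R_SCY → G_LIN

end Pool.Agent.Helper36.RN
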