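import Pool.Agent.Helper36.RN.Geo

/-!
# Project RFn, existence part: the geometric system, statements of the parts

Read `RN/Geo.lean`. All identities were checked by exact computer algebra. `e`, `n0`, `A`, `θ`, `w` as there.
The conclusions are named `R_…`, the packets `G_…`.
-/

namespace Pool.Agent.Helper36.RN

open Set Filter Topology Pool.Agent.Helper47.RFn

/-! ## Static algebra -/

/-- conclusion of ANT: antisymmetries -/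
def R_ANT : Prop := ∀ (n : ℕ) (𝒜 : Type) [CommRing 𝒜] [Algebra ℝ 𝒜] (e : Ix n → Derivation ℝ 𝒜 𝒜)
  (n0 : Ix n → 𝒜) (A θ : Ix n → Ix n → 𝒜) (w : Ix n → Ix n → Ix n → 𝒜),
  (∀ i c d, w i c d = - w i d c) →
  (∀ i j c d, TC.F e n0 w i j c d = - TC.F e n0 w j i c d) ∧
  (∀ i j c d, TC.F e n0 w i j c d = - TC.F e n0 w i j d c) ∧
  (∀ a c d, TC.Ga A w a c d = - TC.Ga A w a d c) ∧
  (∀ a b c d, TC.K e n0 A w a b c d = - TC.K e n0 A w b a c d) ∧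
  (∀ a b c d, TC.K e n0 A w a b c d = - TC.K e n0 A w a b d c) ∧
  (∀ c d, TC.ze e A w c d = - TC.ze e A w d c) ∧
  (∀ i j c, TC.T e n0 θ w i j c = - TC.T e n0 θ w j i c) ∧
  (∀ a b c, TC.ta e n0 A θ w a b c = - TC.ta e n0 A θ w b a c) ∧
  (∀ a c d, TC.y3 e n0 A w a c d = - TC.y3 e n0 A w a d c) ∧
  (∀ i c d, TC.rw e n0 A θ w i c d = - TC.rw e n0 A θ w i d c) ∧
  (∀ i c d, TC.sw e n0 A θ w i c d = - TC.sw e n0 A θ w i d c) ∧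
  (∀ p a b c, TC.X4 e n0 A w p a b c = TC.X4 e n0 A w a b p c)

/-- ANT (0.8 h): antisymmetries. PROOF. Unfold; in the quadratic term of `F`:
`∑_f (w j c f * w i f d - w i c f * w j f d)` changes sign under `c ↔ d` because of the antisymmetry of `w` (each product has two
factors that change sign, and the two products are exchanged). `K`, `y3`, `rw`, `sw` from `F`, `Ga`, `ze` by
linearity (`Finset.sum_congr`, `Finset.sum_neg_distrib`, `map_neg`; swap `i ↔ j` in the double sum for `K a b = - K b a`). -/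
def G_ANT : Prop := R_ANT

/-- conclusion of FLV: formulas in the frame -/
def R_FLV : Prop := ∀ (n : ℕ) (𝒜 : Type) [CommRing 𝒜] [Algebra ℝ 𝒜] (e : Ix n → Derivation ℝ 𝒜 𝒜)
  (n0 : Ix n → 𝒜) (A θ : Ix n → Ix n → 𝒜) (w : Ix n → Ix n → Ix n → 𝒜), CH A θ w →
  (∀ a b c, TC.ta e n0 A θ w a b c = TC.Ga A w a b c - TC.Ga A w b a c - FR.C e n0 A θ a b c) ∧
  (∀ a b c d, TC.K e n0 A w a b c d = FR.Fd e A a (TC.Ga A w b c d) - FR.Fd e A b (TC.Ga A w a c d)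
    + ∑ f, (TC.Ga A w b c f * TC.Ga A w a f d - TC.Ga A w a c f * TC.Ga A w b f d)
    - ∑ f, FR.C e n0 A θ a b f * TC.Ga A w f c d) ∧
  (∀ a b j, FR.Fd e A a (A b j) - FR.Fd e A b (A a j) =
    ∑ f, (TC.Ga A w a b f - TC.Ga A w b a f - TC.ta e n0 A θ w a b f) * A f j
      - FR.nf n0 A a * A b j + FR.nf n0 A b * A a j)

/-- FLV (1 h). PROOF. (1) `A_ai A_bj (e_i θ_jc) = - A_ai (e_i A_bj) θ_jc = - (F_a A_bj) θ_jc` summed over `j` (derivative of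
`∑_j A_bj θ_jc = δ`), `∑_ij A_ai A_bj θ_jf w_ifc = Ga_abc`, `∑_ij A_ai A_bj n0_i θ_jc = nf_a δ_bc`. (2) `F_a (∑_j A_bj w_jcd) =
∑_j (F_a A_bj) w_jcd + ∑_ij A_ai A_bj e_i w_jcd`; `∑_f C_abf Ga_fcd = ∑_j (F_a A_bj - F_b A_aj + nf_a A_bj - nf_b A_aj) w_jcd`
(`∑_f θ_jf A_fk = δ_jk`); the terms `nf_a Ga_bcd = ∑ A_ai A_bj n0_i w_jcd` give the last term of `F`. (3) multiply (1) by
`A_cj` and sum over `c`. -/
def G_FLV : Prop := R_FLV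

/-- conclusion of CNV: cyclic sum of covariant derivatives of a 2-form -/
def R_CNV : Prop := ∀ (n : ℕ) (𝒜 : Type) [CommRing 𝒜] [Algebra ℝ 𝒜] (e : Ix n → Derivation ℝ 𝒜 𝒜)
  (n0 : Ix n → 𝒜) (A θ : Ix n → Ix n → 𝒜) (w : Ix n → Ix n → Ix n → 𝒜) (I : Type) [Fintype I]
  (m : Ix n → I → I → 𝒜) (Φ : Ix n → Ix n → I → 𝒜), CH A θ w → (∀ i j a, Φ i j a = - Φ j i a) →
  ∀ p a b α, TC.cdg e A w m Φ p a b α + TC.cdg e A w m Φ a b p α + TC.cdg e A w m Φ b p a α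
    + ∑ f, (TC.ta e n0 A θ w p a f * TC.fr2 A Φ f b α + TC.ta e n0 A θ w a b f * TC.fr2 A Φ f p α
      + TC.ta e n0 A θ w b p f * TC.fr2 A Φ f a α) =
    ∑ i, ∑ j, ∑ k, A p i * A a j * A b k * (TC.gD e m i (Φ j k) α + TC.gD e m j (Φ k i) α
      + TC.gD e m k (Φ i j) α - 2 * (n0 i * Φ j k α + n0 j * Φ k i α + n0 k * Φ i j α))

/-- CNV (1.5 h), from FLV (3). PROOF. `φ_ab = ∑ A_aj A_bk Φ_jk`. By Leibniz
`cdg p a b = ∑ A_pi A_aj A_bk (D_i Φ_jk) + ∑ B_paj A_bk Φ_jk + ∑ A_aj B_pbk Φ_jk`, `B_paj = F_p A_aj - ∑_f Ga_paf A_fj`. With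
`Φ_jk = - Φ_kj` the last sum is `- ∑ B_pbj A_ak Φ_jk`. In the cyclic sum over `(p, a, b)` the last sums, relabelled, give
`- ∑ B_apj A_bk Φ_jk` (+ cyclic), so together `∑ (B_paj - B_apj) A_bk Φ_jk` (+ cyclic), and by FLV (3)
`B_paj - B_apj = - ∑_f ta_paf A_fj - nf_p A_aj + nf_a A_pj`. The `ta` terms are as stated; `- nf_p φ_ab + nf_a φ_pb` (+ cyclic)
is `- 2 nf_p φ_ab` (+ cyclic) `= - 2 ∑ A_pi A_aj A_bk n0_i Φ_jk` (+ cyclic). Finally relabel `i, j, k` in the cyclic sum. -/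
def G_CNV : Prop := R_FLV → R_CNV

/-- conclusion of BIA: the two Bianchi identities with torsion -/
def R_BIA : Prop := ∀ (n : ℕ) (𝒜 : Type) [CommRing 𝒜] [Algebra ℝ 𝒜] (e : Ix n → Derivation ℝ 𝒜 𝒜)
  (n0 : Ix n → 𝒜) (A θ : Ix n → Ix n → 𝒜) (w : Ix n → Ix n → Ix n → 𝒜), BH e n0 → CH A θ w →
  (∀ p a b c, TC.X4 e n0 A w p a b c =
    TC.cd3 e A w p (TC.ta e n0 A θ w) a b c + TC.cd3 e A w a (TC.ta e n0 A θ w) b p c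
    + TC.cd3 e A w b (TC.ta e n0 A θ w) p a c
    + ∑ f, (TC.ta e n0 A θ w p a f * TC.ta e n0 A θ w f b c
      + TC.ta e n0 A θ w a b f * TC.ta e n0 A θ w f p c
      + TC.ta e n0 A θ w b p f * TC.ta e n0 A θ w f a c)) ∧
  (∀ p a b c d, TC.cd4 e A w p (TC.K e n0 A w) a b c d + TC.cd4 e A w a (TC.K e n0 A w) b p c d
    + TC.cd4 e A w b (TC.K e n0 A w) p a c d
    + ∑ f, (TC.ta e n0 A θ w p a f * TC.K e n0 A w f b c d + TC.ta e n0 A θ w a b f * TC.K e n0 A w f p c d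
      + TC.ta e n0 A θ w b p f * TC.K e n0 A w f a c d) = 0)

/-- BIA (1.5 h), from CNV, ANT. PROOF. (1) CNV with `I = Ix n`, `m i c f = - w i c f`, `Φ_ij c = T_ijc`; `cdg` is `cd3` of `ta`
(`∑_i A_pi w_icf = Ga_pcf`). With `D_i v = e_i v + v w_i` (row vectors: `(v w_i)_c = ∑_f v_f w_ifc = - ∑_f w_icf v_f`):
`T_ij = D_i θ_j - D_j θ_i - (n0_i θ_j - n0_j θ_i)` and `D_i D_j v - D_j D_i v = n0_i D_j v - n0_j D_i v + v F_ij`. The cyclic sum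
of `D_i T_jk` is the cyclic sum of `[D_i, D_j] θ_k - D_i (n0_j θ_k - n0_k θ_j)`; `e_i n0_j` is symmetric (`BH.en`), so this is
cyclic `n0_i D_j θ_k - n0_j D_i θ_k + θ_k F_ij - n0_j D_i θ_k + n0_k D_i θ_j` = cyclic `2 n0_i (D_j θ_k - D_k θ_j) + θ_k F_ij` =
cyclic `2 n0_i T_jk + θ_k F_ij` (as cyclic `n0_i (n0_j θ_k - n0_k θ_j) = 0`). So the right side of CNV is
`∑ A_pi A_aj A_bk (θ_i F_jk + θ_j F_ki + θ_k F_ij)_c = K_abpc + K_bpac + K_pabc`. (2) CNV with `I = Ix n × Ix n`,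
`m i (c,d) (f,g) = - w i c f δ_dg - w i d g δ_cf`, `Φ_ij = F_ij`; in matrix form `D_i X = e_i X + X w_i - w_i X`,
`F_ij = e_i w_j - e_j w_i + w_j w_i - w_i w_j - (n0_i w_j - n0_j w_i)`; the cyclic sum of `D_i F_jk - 2 n0_i F_jk` is `0`
(noncommutative ring computation with `ee`, `en`). -/
def G_BIA : Prop := R_ANT → R_CNV → R_BIA

/-- conclusion of TEV1 -/
def R_TEV1 : Prop := ∀ (n : ℕ) (𝒜 : Type) [CommRing 𝒜] [Algebra ℝ 𝒜] (e : Ix n → Derivation ℝ 𝒜 𝒜)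
  (n0 : Ix n → 𝒜) (A θ : Ix n → Ix n → 𝒜) (w : Ix n → Ix n → Ix n → 𝒜), CH A θ w →
  ∀ a b c, ∑ i, ∑ j, A a i * A b j * TC.dT e n0 A θ w i j c =
    - ∑ q, TC.ta e n0 A θ w a b q * TC.Mm e n0 A w q c
    - TC.cd2 e A w a (TC.Sr e n0 A w) b c + TC.cd2 e A w b (TC.Sr e n0 A w) a c
    + TC.y3 e n0 A w a b c - TC.y3 e n0 A w b a c

/-- TEV1 (1.2 h). PROOF. Row vectors `θ_j`, matrices `M = S + Z` (`Mm`, `Sr`, `ze`), `D_i v = e_i v + v w_i`,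
`D_i X = e_i X + X w_i - w_i X`; `rt_j = - θ_j M`, `rw_i = (∑_a θ_ia y3_a) + D_i Z` (antisymmetry of `w`). So
`dT_ij = D_i rt_j - D_j rt_i - (n0_i rt_j - n0_j rt_i) + θ_j rw_i - θ_i rw_j = - T_ij M - θ_j D_i M + θ_i D_j M + θ_j rw_i - θ_i rw_j`;
the `D Z` terms cancel: `= - T_ij M - θ_j D_i S + θ_i D_j S + ∑_ab θ_ia θ_jb (y3_ab - y3_ba)` (here `y3_ab` = the row
`c ↦ y3 a b c`). Multiply by `A_ai A_bj`: `∑_j A_bj θ_jf = δ_bf`, `∑_i A_ai (D_i S)_bc = cd2 a S b c`. -/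
def G_TEV1 : Prop := R_TEV1

/-- conclusion of TEV: evolution of the torsion -/
def R_TEV : Prop := ∀ (n : ℕ) (𝒜 : Type) [CommRing 𝒜] [Algebra ℝ 𝒜] (e : Ix n → Derivation ℝ 𝒜 𝒜)
  (n0 : Ix n → 𝒜) (A θ : Ix n → Ix n → 𝒜) (w : Ix n → Ix n → Ix n → 𝒜), BH e n0 → CH A θ w →
  ∀ a b c, ∑ i, ∑ j, A a i * A b j * TC.dT e n0 A θ w i j c =
    ∑ p, TC.cd4 e A w p (TC.X4 e n0 A w) p a b c - ∑ q, TC.ta e n0 A θ w a b q * TC.ze e A w q c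
    + ∑ p, ∑ f, (TC.ta e n0 A θ w p a f * TC.K e n0 A w f b p c
      + TC.ta e n0 A θ w b p f * TC.K e n0 A w f a p c)

/-- TEV (1.2 h), from TEV1, BIA, ANT. PROOF. `y3_abc - y3_bac = ∑_p cd4 p (K_pabc - K_pbac)`; `K_pbac = - K_bpac`, and
`X4_pabc = K_pabc + K_abpc + K_bpac`, so this is `∑_p cd4 p X4 p a b c - ∑_p cd4 p K a b p c`. BIA (2) with `c := p`, summed over
`p`: `∑_p cd4 p K a b p c = - ∑_p cd4 a K b p p c - ∑_p cd4 b K p a p c - ∑ (ta_paf K_fbpc + ta_abf K_fppc + ta_bpf K_fapc)`,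
and `∑_p cd4 a K b p p c = cd2 a Sr b c` (the two `Ga` terms for the contracted index cancel by antisymmetry of `Ga`),
`∑_p cd4 b K p a p c = - cd2 b Sr a c`, `∑_p K_fppc = Sr_fc`. Insert; the `cd2 Sr` terms cancel and
`- ta_abq Mm_qc + ta_abf Sr_fc = - ta_abq ze_qc`. -/
def G_TEV : Prop := R_ANT → R_BIA → R_TEV1 → R_TEV

/-- conclusion of SYS: the two forms of the evolution of the connection agree -/
def R_SYS : Prop := ∀ (n : ℕ) (𝒜 : Type) [CommRing 𝒜] [Algebra ℝ 𝒜] (e : Ix n → Derivation ℝ 𝒜 𝒜)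
  (n0 : Ix n → 𝒜) (A θ : Ix n → Ix n → 𝒜) (w : Ix n → Ix n → Ix n → 𝒜), BH e n0 → CH A θ w →
  ∀ i c d, TC.sw e n0 A θ w i c d = TC.rw e n0 A θ w i c d

/-- SYS (1.5 h). PROOF. Expand `∑_a θ_ia y3_acd`, `y3_acd = ∑_q cd4 q K q a c d`, `K_qacd = ∑_kl A_qk A_al F_klcd`:
`F_q (K_qacd) = ∑_p A_qp [(e_p A_qk) A_al F_kl + A_qk (e_p A_al) F_kl + A_qk A_al e_p F_kl]`; with `∑_a θ_ia A_al = δ_il` and
`∑_q A_qp A_qk = al_pk` the six kinds of terms of `∑_a θ_ia cd4` are: `∑ A_qp (e_p A_qk) F_ki`,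
`∑ al_pk θ_ia (e_p A_al) F_kl`, `∑ al_pk e_p F_ki`, `- ∑_f Ga_qqf K_facd θ_ia = - ∑ A_qp w_pqf A_fk F_ki`,
`- ∑ θ_ia Ga_qaf K_qfcd = - ∑ al_pk θ_ia w_paf A_fl F_kl`, and the frame index terms
`- ∑ al_pk (w_pcf F_kifd + w_pdf F_kicf) = ∑ al_pk (F_kicf w_pfd - w_pcf F_kifd)` (antisymmetry). Then
`F_kicd = e_k w_icd - e_i w_kcd + Gq_kicd`, so `∑ al_pk e_p F_ki = ∑ al_pk (e_p e_k w_i - e_p e_i w_k + e_p Gq_ki)`; and
`e_i ze_cd = ∑ (e_i al_kl) e_k w_lcd + ∑ al_kl e_i e_k w_lcd` (relabel: `∑ al_pk e_i e_p w_k`, `al` symmetric); finally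
`e_i e_p w_k - e_p e_i w_k = n0_i e_p w_k - n0_p e_i w_k` (`BH.ee`). -/
def G_SYS : Prop := R_SYS

/-- conclusion of RAD: the radial direction -/
def R_RAD : Prop := ∀ (n : ℕ) (𝒜 : Type) [CommRing 𝒜] [Algebra ℝ 𝒜] (e : Ix n → Derivation ℝ 𝒜 𝒜)
  (n0 : Ix n → 𝒜) (A θ : Ix n → Ix n → 𝒜) (w : Ix n → Ix n → Ix n → 𝒜), BH e n0 → CH A θ w →
  (∀ p c d, TC.cd2 e A w p (TC.wr n0 w) c d = ∑ a, TC.vv n0 θ a * TC.K e n0 A w p a c d) ∧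
  (∀ p c, TC.cd1 e A w p (TC.vv n0 θ) c = TC.wr n0 w p c
    + ∑ a, TC.vv n0 θ a * TC.ta e n0 A θ w p a c) ∧
  (∀ c d, ∑ i, n0 i * TC.rw e n0 A θ w i c d =
    ∑ p, TC.cd3 e A w p (fun p c d => TC.cd2 e A w p (TC.wr n0 w) c d) p c d
    - ∑ p, ∑ a, TC.cd1 e A w p (TC.vv n0 θ) a * TC.K e n0 A w p a c d
    - ∑ f, (TC.wr n0 w c f * TC.ze e A w f d + TC.wr n0 w d f * TC.ze e A w c f)) ∧
  ((∀ a b c, TC.ta e n0 A θ w a b c = 0) → (∀ c d, TC.wr n0 w c d = 0) →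
    (∀ c, ∑ f, TC.Sr e n0 A w c f * TC.vv n0 θ f = 0) ∧
    (∀ c, ∑ f, TC.vv n0 θ f * TC.Sr e n0 A w f c = 0))

/-- RAD (1.5 h), from ANT. PROOF. (1) `∑_a vv_a K_pacd = ∑_ji A_pj n0_i F_jicd` (`∑_a θ_ia A_ak = δ_ik`), and with
`∑ n0_i e_j w_i = e_j wr - ∑_i (e_j n0_i) w_i = e_j wr - w_j + n0_j wr` (`en`), `∑ n0_i e_i w_j = 0` (`ne`), `∑ n0_i² = 1`:
`∑_i n0_i F_jicd = e_j wr_cd + ∑_f (wr_cf w_jfd - w_jcf wr_fd)`. (2) `A_pi e_i (θ_jc n0_j) = ∑ A_pi (e_i θ_jc) n0_j +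
∑ A_pi θ_jc (δ_ij - n0_i n0_j)`, and `vv_a ta_pac = ∑ A_pi n0_j T_ijc` with `∑_j n0_j e_j θ_ic = 0`. (3) `∑_i n0_i θ_ia y3_acd =
∑_a vv_a ∑_p cd4 p K p a c d`, product rule `cd3 p (∑_a vv_a K_·a··) p c d = ∑_a (cd1 p vv a) K_pacd + vv_a cd4 p K p a c d`
(the `Ga` terms for the contracted index `a` cancel by antisymmetry), (1); `∑ n0_i e_i ze = 0`. (4) By (2) `cd1 p vv c = 0`,
so, multiplying by `θ_ip` and summing, `e_i vv_c = ∑_f w_icf vv_f`. Apply `e_j`, antisymmetrize, use `ee`: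
`∑_f F_ijcf vv_f = 0`, hence `∑_f K_abcf vv_f = 0` and `∑_f Sr_cf vv_f = ∑_b ∑_f K_cbbf vv_f = 0`. And by (1) with `wr = 0`:
`∑_a vv_a K_pacd = 0`, so `∑_f vv_f Sr_fc = ∑_b ∑_f vv_f K_fbbc = - ∑_b ∑_f vv_f K_bfbc = 0`. -/
def G_RAD : Prop := R_ANT → R_RAD

/-- the Levi-Civita connection in the form `w` -/
noncomputable def wLC {n : ℕ} {𝒜 : Type} [CommRing 𝒜] [Algebra ℝ 𝒜] (e : Ix n → Derivation ℝ 𝒜 𝒜)
    (n0 : Ix n → 𝒜) (A θ : Ix n → Ix n → 𝒜) (i c d : Ix n) : 𝒜 := ∑ a, θ i a * FR.Gam e n0 A θ a c d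

/-- conclusion of LCI: the initial connection, and uniqueness of the torsion free connection -/
def R_LCI : Prop := ∀ (n : ℕ) (𝒜 : Type) [CommRing 𝒜] [Algebra ℝ 𝒜] (e : Ix n → Derivation ℝ 𝒜 𝒜)
  (n0 : Ix n → 𝒜) (A θ : Ix n → Ix n → 𝒜),
  (FrameHyp e n0 A θ → CH A θ (wLC e n0 A θ) ∧ (∀ a b c, TC.ta e n0 A θ (wLC e n0 A θ) a b c = 0) ∧
    (∀ c d, TC.wr n0 (wLC e n0 A θ) c d = 0)) ∧
  (∀ w : Ix n → Ix n → Ix n → 𝒜, CH A θ w → (∀ a b c, TC.ta e n0 A θ w a b c = 0) →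
    (∀ a b c, FR.Gam e n0 A θ a b c = TC.Ga A w a b c) ∧
    (∀ a b c d, FR.K e n0 A θ a b c d = TC.K e n0 A w a b c d) ∧
    (∀ a c, FR.Rc e n0 A θ a c = TC.Sr e n0 A w a c))

/-- LCI (1.2 h), from FLV, ANT. PROOF. First part: `Ga = Gam` (`A θ = 1`); `C_abc = - C_bac`, hence `Gam_abc = - Gam_acb` and
`Gam_abc - Gam_bac = C_abc`, so `ta = 0` by FLV (1). `wr_cd = ∑_a vv_a Gam_acd`. With `nf = vv` (`nA`), `∑_a vv_a A_ai = n0_i`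
(`tA`), `∑_a vv_a F_a f = 0` (`ne`), `∑_j (F_b n0_j) θ_jc = δ_bc - nf_b vv_c` (`en`): `∑_a vv_a C_abc = F_b vv_c` and
`∑_a C_pca vv_a = F_p nf_c - F_c nf_p` (because `∑_a θ_ja nf_a = ∑_a θ_ja vv_a = n0_j`, from `∑_a θ_ja nf_a = ∑ θ_ja A_ai n0_i`).
So `2 wr_pc = F_p vv_c - (F_p nf_c - F_c nf_p) - F_c vv_p = 0`. Second part: `C = Ga_abc - Ga_bac` by FLV (1), insert in
`Gam` and use the antisymmetry of `Ga`; `K` by FLV (2); `Rc a c = - ∑_b K a b c b = ∑_b K a b b c`. -/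
def G_LCI : Prop := R_ANT → R_FLV → R_LCI

/-- conclusion of GAU: gauge covariance -/
def R_GAU : Prop := ∀ (n : ℕ) (𝒜 : Type) [CommRing 𝒜] [Algebra ℝ 𝒜] (e : Ix n → Derivation ℝ 𝒜 𝒜)
  (n0 : Ix n → 𝒜) (A θ O : Ix n → Ix n → 𝒜) (w : Ix n → Ix n → Ix n → 𝒜), BH e n0 → CH A θ w →
  (∀ a b c, TC.ta e n0 A θ w a b c = 0) →
  (∀ a b, ∑ c, O a c * O b c = if a = b then 1 else 0) →
  (∀ a b, ∑ c, O c a * O c b = if a = b then 1 else 0) →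
  ∀ a c, FR.Rc e n0 (fun a i => ∑ b, O a b * A b i) (fun i a => ∑ b, θ i b * O a b) a c =
    ∑ b, ∑ d, O a b * O c d * TC.Sr e n0 A w b d

/-- GAU (1.5 h), from LCI, ANT. PROOF. `A' = O A`, `θ' = θ Oᵀ`, `w'_i = (e_i O) Oᵀ + O w_i Oᵀ`, i.e.
`w' i c d = ∑_b e_i(O_cb) O_db + ∑_bf O_cb w_ibf O_df`. `w'` is antisymmetric (`e_i (O Oᵀ) = 0`), `A' θ' = 1`, `θ' A' = 1`. `T = 0`
from `ta = 0` (multiply with `θ θ`), and `T'_ijc = ∑_b T_ijb O_cb` (the terms `θ_jb e_i O_cb` cancel), so `ta' = 0`.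
`F'_ij = O F_ij Oᵀ`: matrix computation with `O Oᵀ = Oᵀ O = 1`, `(e_i O) Oᵀ + O (e_i Oᵀ) = 0` and
`e_i ((e_j O) Oᵀ) - e_j ((e_i O) Oᵀ) = ([e_i, e_j] O) Oᵀ + (e_j O)(e_i Oᵀ) - (e_i O)(e_j Oᵀ)`, `[e_i, e_j] = n0_i e_j - n0_j e_i`
(`BH.ee`). Now LCI for `(A', θ', w')`: `Rc a c = ∑_b K'_abbc` and `K'_abcd = ∑ O_ap O_bq O_cr O_ds K_pqrs`. -/
def G_GAU : Prop := R_ANT → R_LCI → R_GAU

end Pool.Agent.Helper36.RN
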