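import Pool.Agent.Helper36.RN.GoalsG

/-!
# Project RFn, existence part: from the system to the Ricci flow, statements of the parts

Read `RN/Geo.lean`. `FS`: solutions of the system; `INV`: `A θ = 1`, `O Oᵀ = 1`; then the torsion vanishes (ZT), then
the radial part `wr` of the connection (ZR); the frame `O A` is the framed Ricci flow (FIA, FIB).
-/

namespace Pool.Agent.Helper36.RN

open Set Filter Topology Pool.Agent.Helper47.RFn

/-- uniqueness for linear systems of ordinary differential equations -/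
def R_EN0 : Prop := ∀ (n : ℕ) (ν : Type) [Fintype ν] (τ : ℝ) (N N' : ν → ℝ → XS n)
  (c : ν → ν → ℝ → XS n), (∀ i, CD τ (N i) (N' i)) → (∀ i j, CC τ (c i j)) →
  (∀ t ∈ Icc 0 τ, ∀ i, N' i t = ∑ j, c i j t * N j t) →
  (∀ i, N i 0 = 0) → ∀ t ∈ Icc 0 τ, ∀ i, N i t = 0

theorem en0_of (h : R_ENB) : R_EN0 := fun n ν _ τ N N' c hN hc he h0 =>
  h n ν PEmpty τ 1 (fun _ _ _ => 0) N N' (fun j => j.elim) (fun _ _ _ => 0) (fun _ j => j.elim) c
    (fun j => j.elim) one_pos hN (fun j => j.elim)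
    (fun _ _ m t _ δ hδ => ⟨1, one_pos, fun s _ _ => by
      rw [sub_zero]
      simp only [sn, map_zero]
      exact hδ.le⟩)
    (fun _ j => j.elim) hc (fun j => j.elim)
    (fun t ht i => by
      rw [he t ht i]
      simp)
    (fun _ _ j => j.elim) h0

/-- INS (1.5 h): the system is a mixed system. (Model: `Helper2/RI/INS.lean`.) PROOF. All of `TC.rA, rt, rO` with
`e i = ev (un u) i = ∑_j ν_j L_ji` are polynomials in the jet `(u, v, Lv)` (`vw v` is `0` or `±` a variable), no derivative of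
`u` occurs. `TC.lw` is a polynomial in the jet `(u, v, Lv, Lu)`: second derivatives of `v` do not occur, and derivatives of
`u` occur only to first order (`e_p (A a k)`, `e_i (al k l)`; note `e_p (Gq ..)` contains `e_p ν` and `e_p w`). Main part:
`al p k * e p (e k v) = al_pk ν_j L_jp (ν_i L_ik v)` (sum over `p k j i`) `= L_jp (ν_j al_pk ν_i L_ik v) - L_jp (ν_j al_pk ν_i) L_ik v +
al_pk ν_j (L_jp ν_i) L_ik v`; so `α (j, p) (i, k) = ν_j al_pk ν_i`, `β = 0`, and the last two terms belong to `W`. For the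
component `j = (i, (c, d))` with `c < d`: `vw v i c d = v j` (the main part needs no antisymmetry), and `TC.sw` at
`(i, c, d)`. (Suggestion: call `g : (I → XS n) → (J → XS n) → XS n` polynomial in the jet if
`∃ p, ∀ u v, g u v = aeval (zj' u v) p`; this is closed under sums, products, real multiples, finite sums and contains the
variables; the same for `zj`; if `g` is a polynomial in `u`, `v` only (no derivatives) then `Ld p (g u v)` is polynomial in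
`zj'`; choose `G`, `W` by `choose`.) -/
def G_INS : Prop := ∀ n : ℕ, ∃ D : QLD n (UI n) (VI n),
  (∀ (u : UI n → XS n) (v : VI n → XS n) (a i : Ix n), D.FI u v (Sum.inl (a, i)) = TC.rA (𝒜 := XS n) (ev (un u)) (un u) (uA u) (vw v) a i) ∧
  (∀ (u : UI n → XS n) (v : VI n → XS n) (i a : Ix n), D.FI u v (Sum.inr (Sum.inl (i, a))) = TC.rt (𝒜 := XS n) (ev (un u)) (un u) (uA u) (uth u) (vw v) i a) ∧
  (∀ (u : UI n → XS n) (v : VI n → XS n) (a b : Ix n), D.FI u v (Sum.inr (Sum.inr (Sum.inl (a, b)))) =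
    TC.rO (𝒜 := XS n) (ev (un u)) (uA u) (vw v) (uO u) a b) ∧
  (∀ (u : UI n → XS n) (v : VI n → XS n) (i : Ix n), D.FI u v (Sum.inr (Sum.inr (Sum.inr i))) = 0) ∧
  (∀ (u : UI n → XS n) (v : VI n → XS n) (j : VI n), D.FJ u v j =
    TC.sw (𝒜 := XS n) (ev (un u)) (un u) (uA u) (uth u) (vw v) j.1 j.2.1.1 j.2.1.2) ∧
  (∀ (u : UI n → XS n) (p q : KK n), MvPolynomial.aeval u (D.α p q) =
    un u p.1 * TC.al (uA u) p.2 q.2 * un u q.1)

/-- conclusion of FRL: existence of solutions of the system -/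
def R_FRL : Prop := ∀ n : ℕ, 1 ≤ n → ∀ (A0 θ0 O0 : Ix n → Ix n → XS n) (w0 : Ix n → Ix n → Ix n → XS n),
  (∀ a b, ∑ i, A0 a i * θ0 i b = if a = b then 1 else 0) → (∀ i c d, w0 i c d = - w0 i d c) →
  ∃ τ > 0, ∃ (A θ O : ℝ → Ix n → Ix n → XS n) (w : ℝ → Ix n → Ix n → Ix n → XS n),
    FS τ A θ O w ∧ A 0 = A0 ∧ θ 0 = θ0 ∧ O 0 = O0 ∧ w 0 = w0

/-- FRL (1.5 h): existence, from the local existence theorem for mixed systems and INS. (Model: `Helper16/RI/FRL.lean`.)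
PROOF. `u0 = (A0, θ0, O0, nu)`, `v0 j = w0 j.1 j.2.1.1 j.2.1.2` (so `vw v0 = w0` by antisymmetry). Ellipticity near `u0`: for
`f`, `x` let `ξ_k = (Ee k f) x`, `l_jk = (Ld (j,k) f) x = ν_j ξ_k - ν_k ξ_j` (`Ld_eq`), `∑ l_jk² = 2 |ξ|²` (`nu_sq`, `nu_Ee`). With
`u = (A, _, _, ν')` within `ρ` of `u0`: `∑ a_pq L_p f L_q f = ∑_a (∑_k A_ak ξ'_k)²`, `ξ'_k = ∑_j ν'_j l_jk`, `|ξ'_k - ξ_k| ≤
ρ ∑_j |l_jk|` (`Ee_def`), and `ξ_j = ∑_c (∑_i A0_ci ξ_i) θ0_jc` (`θ0 A0 = 1` at `x`: square matrices), `θ0` bounded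
(`bdd_val`): `|A0 ξ| ≥ c |ξ|`, hence `|A ξ'| ≥ (c/2) |ξ|` for small `ρ`. The solution: `ν'(t) = nu` for `t ∈ [0, τ]` by EN0
(`N = ν' - nu`, `N' = 0`), so `ev (un u) = Ee` (`Ee_def`). `w t = vw (v t)` is antisymmetric for all `t`; the equation of the
component `(i, (c, d))`, `c < d`, gives `dw` for `c < d`; for `d < c` use `CD` of the negative and the antisymmetry of `sw`
(ANT); for `c = d` both sides are `0`. `CD` rules (last ones of CDA) to replace the right side on `[0, τ]`. -/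
def G_FRL : Prop := G_QL → G_INS → R_ANT → R_CDA → R_EN0 → R_FRL

/-- conclusion of IVV -/
def R_IVV : Prop := ∀ (n : ℕ) (τ : ℝ) (A θ O : ℝ → Ix n → Ix n → XS n) (w : ℝ → Ix n → Ix n → Ix n → XS n),
  FS τ A θ O w → (∀ a b, ∑ i, A 0 a i * θ 0 i b = if a = b then 1 else 0) →
  (∀ a b, ∑ c, O 0 a c * O 0 b c = if a = b then 1 else 0) → INV τ A θ O w

/-- IVV (1 h): invariants. PROOF. `N (a, b) t = ∑ A_ai θ_ib - δ_ab`; by CDA its derivative is `∑_i (rA_ai θ_ib + A_ai rt_ib)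
= ∑_c (Mm_ac N_cb - N_ac Mm_cb)`; EN0. `θ A = 1` by `Matrix.mul_eq_one_comm` over the commutative ring `XS n`. The same for
`∑_c O_ac O_bc - δ_ab`, whose derivative `- ∑ O_ae ze_ec O_bc - ∑ O_ac O_be ze_ec` is `0` (antisymmetry of `ze`, ANT). The
coefficients are continuous: `Mm` is a polynomial in the curves and their derivatives (CDA: `CC`). -/
def G_IVV : Prop := R_ANT → R_CDA → R_EN0 → R_IVV

/-- conclusion of ZT -/
def R_ZT : Prop := ∀ (n : ℕ) (τ : ℝ) (A θ O : ℝ → Ix n → Ix n → XS n) (w : ℝ → Ix n → Ix n → Ix n → XS n),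
  FS τ A θ O w → INV τ A θ O w → (∀ a b c, TC.ta (Ee (n := n)) nu (A 0) (θ 0) (w 0) a b c = 0) →
  ∀ t ∈ Icc 0 τ, ∀ a b c, TC.ta (Ee (n := n)) nu (A t) (θ t) (w t) a b c = 0

/-- ZT (1.5 h): the torsion stays zero. PROOF. ENB with `ν = Ix n × Ix n × Ix n`, `N (a,b,c) t = ta a b c`,
`μ = Ix n × Ix n × Ix n × Ix n`, `X (p,a,b,c) t = X4 p a b c`, `κ = 1/3`,
`k (p,q,r,c) e (a,b,c') = δ_cc' (δ_pe δ_qa δ_rb + δ_qe δ_ra δ_pb + δ_re δ_pa δ_qb)`. By CDA (product rule, `Ee i` commutes with the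
time derivative) the derivative of `ta a b c = ∑ A_ai A_bj T_ijc` is `∑_ij A_ai A_bj dT_ijc + ∑_d (Mm_ad ta_dbc + Mm_bd ta_adc)`
(the derivative of `T` is `dT` with `sw` in place of `rw`; SYS). TEV: `= ∑_p cd4 p X4 p a b c - ta ze + ta K`, where
`∑_p cd4 p X4 p a b c = ∑_p ∑_l A_pl Ee_l (X4_pabc) - (Ga terms, linear in X4)` and, by cyclic symmetry of `X4` (ANT),
`(1/3) ∑_{μ,e} k μ e (a,b,c) F_e X_μ = ∑_p F_p X4_pabc`. Second equation: BIA (1), `cd3 p ta a b c = F_p ta_abc - Ga terms`, the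
quadratic terms `ta ta` are of the form `c3 N` with `c3 = ta`. All coefficients (`A`, `Ga`, `K`, `ze`, `Mm`, `ta`) are
continuous curves: CDA. -/
def G_ZT : Prop := R_ANT → R_BIA → R_TEV → R_SYS → R_CDA → R_ENB → R_ZT

/-- conclusion of ZR -/
def R_ZR : Prop := ∀ (n : ℕ) (τ : ℝ) (A θ O : ℝ → Ix n → Ix n → XS n) (w : ℝ → Ix n → Ix n → Ix n → XS n),
  FS τ A θ O w → INV τ A θ O w →
  (∀ t ∈ Icc 0 τ, ∀ a b c, TC.ta (Ee (n := n)) nu (A t) (θ t) (w t) a b c = 0) →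
  (∀ c d, TC.wr nu (w 0) c d = 0) → ∀ t ∈ Icc 0 τ, ∀ c d, TC.wr nu (w t) c d = 0

/-- ZR (1.2 h): the radial part of the connection stays zero. PROOF. ENB with `ν = Ix n × Ix n`, `N (c,d) = wr_cd`,
`μ = Ix n × Ix n × Ix n`, `X (p,c,d) = cd2 p wr c d`, `κ = 1`, `k (p,c,d) e (c',d') = δ_pe δ_cc' δ_dd'`. Derivative of `wr`:
`∑ nu_i sw_icd = ∑ nu_i rw_icd` (SYS) `= ∑_p cd3 p X p c d - ∑ (cd1 p vv a) K_pacd - ∑ (wr ze)` by RAD (3), and by RAD (2) with
`ta = 0`: `cd1 p vv a = wr_pa`. -/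
def G_ZR : Prop := R_ANT → R_RAD → R_SYS → R_CDA → R_ENB → R_ZR

/-- conclusion of FIA: framed Ricci flow in `XS n` -/
def R_FIA : Prop := ∀ n : ℕ, 1 ≤ n → ∀ A0 θ0 : Ix n → Ix n → XS n, FrameHyp (Ee (n := n)) nu A0 θ0 →
  ∃ τ > 0, ∃ A θ : ℝ → Ix n → Ix n → XS n, A 0 = A0 ∧ θ 0 = θ0 ∧
    (∀ t ∈ Icc 0 τ, FrameHyp (Ee (n := n)) nu (A t) (θ t)) ∧
    (∀ a i, CD τ (fun t => A t a i) (fun t => ∑ b, FR.Rc (Ee (n := n)) nu (A t) (θ t) a b * A t b i)) ∧
    (∀ i a, CD τ (fun t => θ t i a) (fun t => - ∑ b, θ t i b * FR.Rc (Ee (n := n)) nu (A t) (θ t) b a))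

/-- FIA (1.5 h). PROOF. LCI (first part): `w0 = wLC A0 θ0`; FRL with `O0 = 1`; IVV; ZT; ZR. Let `A' = O A`, `θ' = θ Oᵀ`. CDA:
the derivative of `A'_ai = ∑_b O_ab A_bi` is `∑ (- O ze A + O (Sr + ze) A) = (O Sr A)_ai = ∑_b S'_ab A'_bi` with
`S' = O Sr Oᵀ = FR.Rc` (GAU; `Oᵀ O = 1`); the derivative of `θ'_ia = ∑_b θ_ib O_ab` is `- θ (Sr + ze) Oᵀ - θ (O ze)ᵀ = - θ Sr Oᵀ =
- θ' S'` (`ze` antisymmetric). `A' θ' = 1`. `nA`: `N_a = ∑_i A'_ai nu_i - ∑_i θ'_ia nu_i`; the derivative of the second sum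
`v'_a` (`= ∑_b vv_b O_ab`) is `- ∑_b v'_b S'_ba = - ∑ vv_b Sr_bd O_ad = 0` (RAD (4)), of the first `∑_b S'_ab (N_b + v'_b) =
∑_b S'_ab N_b`, as `∑_b S'_ab v'_b = ∑ O_ab Sr_bd vv_d = 0` (RAD (4)). `N = 0` at `t = 0` by `nA` of `A0, θ0`. EN0. -/
def G_FIA : Prop := R_LCI → R_FRL → R_IVV → R_ZT → R_ZR → R_RAD → R_GAU → R_ANT → R_CDA → R_EN0 → R_FIA

/-- conclusion of DIC: the function level formulas of `FlowN` and the algebra `XS n` -/
def R_DIC : Prop := ∀ (n : ℕ) (A θ : MF n) (hA : ∀ a i, Sm (fun x => A x a i))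
  (ht : ∀ i a, Sm (fun x => θ x i a)),
  (∀ (f : EE n → ℝ) (hf : Sm f) a, Sm (Fdc A a f) ∧ ∀ x : Om n,
    Fdc A a f x.1 = (FR.Fd (Ee (n := n)) (fun a i => toXS _ (hA a i)) a (toXS f hf)).1 x) ∧
  (∀ a (x : Om n), nfc A a x.1 = (FR.nf nu (fun a i => toXS _ (hA a i)) a).1 x) ∧
  (∀ a b c, Sm (Gamc A θ a b c) ∧ ∀ x : Om n,
    Gamc A θ a b c x.1 = (FR.Gam (Ee (n := n)) nu (fun a i => toXS _ (hA a i)) (fun i a => toXS _ (ht i a)) a b c).1 x) ∧
  (∀ a b c d, Sm (Kf A θ a b c d) ∧ ∀ x : Om n,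
    Kf A θ a b c d x.1 = (FR.K (Ee (n := n)) nu (fun a i => toXS _ (hA a i)) (fun i a => toXS _ (ht i a)) a b c d).1 x) ∧
  (∀ a c, Sm (Rcf A θ a c) ∧ ∀ x : Om n,
    Rcf A θ a c x.1 = (FR.Rc (Ee (n := n)) nu (fun a i => toXS _ (hA a i)) (fun i a => toXS _ (ht i a)) a c).1 x) ∧
  (∀ (u : EE n → ℝ) (hu : Sm u) (x : Om n), Lapf A θ u x.1 =
    (∑ a, FR.Fd (Ee (n := n)) (fun a i => toXS _ (hA a i)) a (FR.Fd (Ee (n := n)) (fun a i => toXS _ (hA a i)) a (toXS u hu))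
      - ∑ a, ∑ b, FR.Gam (Ee (n := n)) nu (fun a i => toXS _ (hA a i)) (fun i a => toXS _ (ht i a)) a a b
        * FR.Fd (Ee (n := n)) (fun a i => toXS _ (hA a i)) b (toXS u hu) : XS n).1 x)

/-- DIC (1 h). PROOF. `Ee_toXS`, `ed_congr`; each function level expression is a sum of products of `ed i` of functions which
agree on `{x ≠ 0}` with elements of `XS n`. Convenient: the relation `rel F f := Sm F ∧ ∀ x : Om n, F x.1 = f.1 x` between
`F : EE n → ℝ` and `f ∈ XS n` is compatible with sums, products, constants, finite sums and (`Ee_apply`, `ed_congr`)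
`rel F f → rel (ed i F) (Ee i f)`. (Smoothness at `x = 0` is no condition.) -/
def G_DIC : Prop := R_DIC

/-- FIB (1 h): local existence of the framed Ricci flow. PROOF. From `Frm A0 θ0`: `toXS` of the entries satisfies
`FrameHyp Ee nu` (`At` from `inv`, `tA` by `Matrix.mul_eq_one_comm`, `nA` divided by `‖x‖`, `bh_XS`). FIA. Define `A t x` for `x ≠ 0`
by the solution (`A t x a i = (A t a i).1 ⟨x, _⟩`) and `1` for `x = 0`, for `t ∈ [0, τ]` (and all `t`; outside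
nothing is required). `inv`, `nA` for `x ≠ 0` from `FrameHyp` (times `‖x‖`), trivial for `x = 0`. `flA`, `flt`: `R_CV` for the
entries gives `SmFam1` for the `ext`, and `SmFam1` does not see the value at `x = 0` (`sm_congr`, `Ew_congr`) nor the
derivative outside `I`; `Rcf` by DIC. -/
def G_FIB : Prop := R_FIA → R_DIC → R_CV → LocExStmt

/-- HEX (1.5 h): the heat equation along a framed flow, from the linear theorem. (Model: `Helper27/RI/HEX.lean`.)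
PROOF. For `t ∈ [0, τ]` the entries of `A t`, `θ t` are in `XS n` (`toXS`; put `0` for other `t`); they are continuous curves `CC`
(SFC: `SmFam` from `FFlow`, `ext_toXS` and congruence off `0`), and so are all polynomials in them and their `Ee`-derivatives
(CDA). By DIC `Lapf u = ∑ al_kl e_k e_l u + ∑_l c_l e_l u`, `al_kl = ∑_a A_ak A_al`, `c_l = ∑_ak A_ak e_k (A_al) - ∑_ab Gam_aab A_bl`;
with `e_l = ∑_i nu_i L_il`: `= ∑_{jk,il} nu_j al_kl nu_i L_jk L_il u + ∑_{il} (nu_i c_l + ∑_jk nu_j al_kl (L_jk nu_i)) L_il u`. Ellipticity: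
`∑ a_pq L_p f L_q f = ∑_a (∑_k A_ak ξ_k)²`, `ξ_k = e_k f`, `∑ (L_p f)² = 2 |ξ|²` (as in FRL), `ξ_j = ∑_c (A ξ)_c θ_jc`, `θ` bounded on
`[0, τ]` (CDA, last part). Take `u t = ext (y t).1`, `SmFam1` by `R_CV`, and `Lapf (A t) (θ t) (ext (y t).1)` agrees with the
right side for `x ≠ 0`. -/
def G_HEX : Prop := G_LIN → R_DIC → R_SFC → R_CV → R_CDA → HeatExStmt

end Pool.Agent.Helper36.RN
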