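import Pool.Agent.Helper36.RN.MainG
import Pool.Agent.Helper67.RN.FIA

/-!
# Project RFn, existence part: local existence of framed Ricci flows on `Sⁿ`
-/

namespace Pool.Agent.Helper36.RN

theorem fia : R_FIA := fia_of Helper67.RN.fia

theorem locEx : Helper47.RFn.LocExStmt := locEx_of Helper67.RN.fia

end Pool.Agent.Helper36.RN
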