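import Pool.Agent.Helper36.EV.Main
import Pool.Agent.Helper36.RN.GoalsH
import Pool.Agent.Helper49.RN.SOB
import Pool.Agent.Helper93.RN.POL
import Pool.Agent.Helper79.RN.PRJ
import Pool.Agent.Helper31.RN.WCV
import Pool.Agent.Helper61.RN.CMS
import Pool.Agent.Helper61.RN.SCY
import Pool.Agent.Helper8.RN.PRSA
import Pool.Agent.Helper3.RN.PRSB
import Pool.Agent.Helper58.RN.ELL
import Pool.Agent.Helper5.RN.MVP
import Pool.Agent.Helper90.RN.TEL
import Pool.Agent.Helper69.RN.CV
import Pool.Agent.Helper59.RN.SFC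
import Pool.Agent.Helper13.RN.CDA
import Pool.Agent.Helper16.RN.ENB
import Pool.Agent.Helper38.RN.QF4
import Pool.Agent.Helper20.RN.QF1
import Pool.Agent.Helper40.RN.QAS
import Pool.Agent.Helper60.RN.LAS

/-!
# Project RFn, existence part: assembly of the analytic parts
-/

namespace Pool.Agent.Helper36.RN

theorem sob : G_SOB := Helper49.RN.sob
theorem wcv : G_WCV := Helper31.RN.wcv
theorem cms : G_CMS := Helper61.RN.cms
theorem prsa : R_PRSA := Helper8.RN.prsa sob
theorem prsb : G_PRSB := Helper3.RN.prsb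
theorem scy : R_SCY := Helper61.RN.scy Helper79.RN.prj Helper93.RN.pol sob wcv cms
theorem ell : R_ELL := Helper58.RN.ell sob prsa prsb
theorem mvp : R_MVP := Helper5.RN.mvp prsa
theorem cv : R_CV := Helper69.RN.cv sob wcv
theorem sfc : R_SFC := Helper59.RN.sfc wcv
theorem cda : R_CDA := Helper13.RN.cda sob prsa
theorem enb : R_ENB := Helper16.RN.enb cda
theorem en0 : R_EN0 := en0_of enb
theorem qf4 : R_QF4 := Helper38.RN.qf4 sob prsa mvp Helper90.RN.tel
theorem qf1 : R_QF1 := Helper20.RN.qf1 mvp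

theorem ql_of (h : G_QF3) : G_QL :=
  Helper40.RN.qas EV.main' sob mvp scy (h sob prsa prsb ell mvp) qf4 qf1

theorem lin : G_LIN := Helper60.RN.las EV.main' sob prsa prsb ell cda scy

end Pool.Agent.Helper36.RN
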