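import Pool.Agent.Helper36.RN.Heat
import Pool.Agent.Helper54.RN.QF3
import Pool.Agent.Helper20.RN.BIA
import Pool.Agent.Helper13.RN.FRL
import Pool.Agent.Helper59.RN.IVV
import Pool.Agent.Helper3.RN.ZR
import Pool.Agent.Helper19.RN.ANT
import Pool.Agent.Helper31.RN.FLV
import Pool.Agent.Helper38.RN.TEV1
import Pool.Agent.Helper42.RN.INS
import Pool.Agent.Helper49.RN.CNV
import Pool.Agent.Helper5.RN.FIB
import Pool.Agent.Helper56.RN.TEV
import Pool.Agent.Helper62.RN.ZT
import Pool.Agent.Helper69.RN.LCI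
import Pool.Agent.Helper77.RN.RAD
import Pool.Agent.Helper79.RN.SYS
import Pool.Agent.Helper93.RN.GAU

/-!
# Project RFn, existence part: assembly of the geometric parts
-/

namespace Pool.Agent.Helper36.RN

theorem ql : G_QL := ql_of Helper54.RN.qf3

theorem ant : R_ANT := Helper19.RN.ant
theorem flv : R_FLV := Helper31.RN.flv
theorem cnv : R_CNV := Helper49.RN.cnv flv
theorem tev1 : R_TEV1 := Helper38.RN.tev1
theorem sys : R_SYS := Helper79.RN.sys
theorem rad : R_RAD := Helper77.RN.rad ant
theorem lci : R_LCI := Helper69.RN.lci ant flv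
theorem gau : R_GAU := Helper93.RN.gau ant lci
theorem bia : R_BIA := Helper20.RN.bia ant cnv
theorem tev : R_TEV := Helper56.RN.tev ant bia tev1
theorem frl : R_FRL := Helper13.RN.frl ql Helper42.RN.ins ant cda en0
theorem ivv : R_IVV := Helper59.RN.ivv ant cda en0
theorem zt : R_ZT := Helper62.RN.zt ant bia tev sys cda enb
theorem zr : R_ZR := Helper3.RN.ZR.zr ant rad sys cda enb

theorem fia_of (h : G_FIA) : R_FIA := h lci frl ivv zt zr rad gau ant cda en0

theorem locEx_of (h : G_FIA) : Helper47.RFn.LocExStmt := Helper5.RN.fib (fia_of h) dic cv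

end Pool.Agent.Helper36.RN
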