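import Pool.Agent.Helper64.RN.Goals
import Pool.Agent.Helper74.IG.RK1

/-!
Project RN (captain helper64), packet UN.
-/

set_option autoImplicit false

universe u

namespace Pool.Agent.Helper36.RN.UN

open Module Pool.Agent.Helper64.IG Pool.Agent.Helper64.RN

variable {K : Type u} [Field K] {p : ℕ} {E : Type}

lemma R_empty (v : E → Fin p → K) : R v ∅ = 0 := by
  unfold R
  simp

lemma R_mono (v : E → Fin p → K) {X Y : Finset E} (h : X ⊆ Y) : R v X ≤ R v Y := by
  unfold R
  apply Submodule.finrank_mono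
  apply Submodule.span_mono
  apply Set.image_mono
  exact_mod_cast h

lemma R_submod [DecidableEq E] (v : E → Fin p → K) (X Y : Finset E) :
    R v (X ∩ Y) + R v (X ∪ Y) ≤ R v X + R v Y := by
  have h1 := Submodule.finrank_sup_add_finrank_inf_eq
    (Submodule.span K (v '' (X : Set E))) (Submodule.span K (v '' (Y : Set E)))
  have h2 : Submodule.span K (v '' ((X ∪ Y : Finset E) : Set E)) =
      Submodule.span K (v '' (X : Set E)) ⊔ Submodule.span K (v '' (Y : Set E)) := by
    rw [← Submodule.span_union, ← Set.image_union, Finset.coe_union]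
  have h3 : Submodule.span K (v '' ((X ∩ Y : Finset E) : Set E)) ≤
      Submodule.span K (v '' (X : Set E)) ⊓ Submodule.span K (v '' (Y : Set E)) := by
    apply le_inf
    · apply Submodule.span_mono
      apply Set.image_mono
      rw [Finset.coe_inter]
      exact Set.inter_subset_left
    · apply Submodule.span_mono
      apply Set.image_mono
      rw [Finset.coe_inter]
      exact Set.inter_subset_right
  have h4 := Submodule.finrank_mono h3
  unfold R
  rw [h2]
  omega

lemma R_single (v : E → Fin p → K) (e : E) : R v {e} ≤ 1 := by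
  unfold R
  have h0 : v '' (({e} : Finset E) : Set E) = {v e} := by simp
  rw [h0]
  have h := finrank_span_le_card (R := K) ({v e} : Set (Fin p → K))
  simpa using h

lemma R_insert [DecidableEq E] (v : E → Fin p → K) (X : Finset E) (e : E) :
    R v (insert e X) ≤ R v X + 1 := by
  have h1 := R_submod v {e} X
  have h2 := R_single v e
  have h3 : ({e} ∪ X : Finset E) = insert e X := rfl
  rw [h3] at h1
  omega

lemma omega_ne [DecidableEq E] {ω : (Fin p → E) → K} {c : K} {v : E → Fin p → K}
    (hr : Rep ω c v) (hc : c ≠ 0) (a : Fin p → E) :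
    ω a ≠ 0 ↔ R v (Finset.univ.image a) = p := by
  rw [hr a]
  have h1 : c * Matrix.det (fun i j => v (a j) i) ≠ 0 ↔
      Matrix.det (fun i j => v (a j) i) ≠ 0 := by
    constructor
    · exact fun h => right_ne_zero_of_mul h
    · exact fun h => mul_ne_zero hc h
  rw [h1, PkRK1.det_ne_zero_iff, linearIndependent_iff_card_eq_finrank_span, Fintype.card_fin]
  have h2 : Set.range (fun j => v (a j)) = v '' ((Finset.univ.image a : Finset E) : Set E) := by
    ext y
    simp
  unfold R Set.finrank
  rw [h2]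
  exact eq_comm

lemma up_image [DecidableEq E] {q : ℕ} (s : Fin q → E) (x0 y0 x y : E) :
    Finset.univ.image (up (Fin.cons x0 (Fin.cons y0 s) : Fin (q + 2) → E) 0 1 x y) =
      insert x (insert y (Finset.univ.image s)) := by
  have h : up (Fin.cons x0 (Fin.cons y0 s) : Fin (q + 2) → E) 0 1 x y =
      Fin.cons x (Fin.cons y s) := by
    funext k
    refine Fin.cases ?_ (fun k => ?_) k
    · simp [up]
    · refine Fin.cases ?_ (fun k => ?_) k
      · simp [up]
      · have h1 : (k.succ.succ : Fin (q + 2)) ≠ 1 := by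
          intro h
          have := congrArg Fin.val h
          simp at this
        simp [up, Function.update_of_ne h1]
  rw [h]
  ext z
  simp only [Finset.mem_image, Finset.mem_univ, true_and, Finset.mem_insert]
  constructor
  · rintro ⟨k, rfl⟩
    refine Fin.cases ?_ (fun k => ?_) k
    · left; simp
    · refine Fin.cases ?_ (fun k => ?_) k
      · right; left; simp
      · right; right; exact ⟨k, by simp⟩
  · rintro (rfl | rfl | ⟨k, rfl⟩)
    · exact ⟨0, by simp⟩
    · refine ⟨(0 : Fin (q + 1)).succ, ?_⟩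
      rw [Fin.cons_succ, Fin.cons_zero]
    · exact ⟨k.succ.succ, by simp⟩

lemma conn_one [Fintype E] [DecidableEq E] (v : E → Fin p → K) (h4 : 4 ≤ Fintype.card E)
    (hU : R v Finset.univ = p)
    (hZ : ∀ Z : Finset E, 2 ≤ Z.card → 2 ≤ Zᶜ.card → p + 2 ≤ R v Z + R v Zᶜ) (g : E) :
    p + 1 ≤ R v {g} + R v {g}ᶜ := by
  by_contra hlt
  push Not at hlt
  obtain ⟨h, hh⟩ : ∃ h : E, h ≠ g := by
    have : Nontrivial E := Fintype.one_lt_card_iff_nontrivial.1 (by omega)
    exact exists_ne g
  have s1 := R_submod v {g} {h}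
  have s2 := R_submod v {g}ᶜ {h}ᶜ
  have e1 : ({g} ∪ {h} : Finset E) = {g, h} := rfl
  have e2 : ({g}ᶜ ∩ {h}ᶜ : Finset E) = ({g, h} : Finset E)ᶜ := by
    rw [← Finset.compl_union]; rfl
  have e3 : ({g}ᶜ ∪ {h}ᶜ : Finset E) = Finset.univ := by
    rw [← Finset.compl_inter]
    have : ({g} ∩ {h} : Finset E) = ∅ := by
      ext z
      simp only [Finset.mem_inter, Finset.mem_singleton, Finset.notMem_empty, iff_false, not_and]
      rintro rfl h'
      exact hh h'.symm
    rw [this, Finset.compl_empty]
  rw [e1] at s1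
  rw [e2, e3, hU] at s2
  have c2 : ({g, h} : Finset E).card = 2 := Finset.card_pair hh.symm
  have c3 : 2 ≤ (({g, h} : Finset E)ᶜ).card := by
    rw [Finset.card_compl, c2]; omega
  have h3 := hZ {g, h} (by rw [c2]) c3
  have r1 := R_single v h
  have r2 : R v {h}ᶜ ≤ p := (R_mono v (Finset.subset_univ _)).trans hU.le
  omega

theorem t (hLN : S_LN) (hSP : S_SP.{u}) : S_UN.{u} := by
  intro K _ E _ _ p ω c v hr hc hCR h4 hU hZ a hinj h0
  -- the set `X`
  have hX : R v (Finset.univ.image a) < p := by
    have h1 : ¬ R v (Finset.univ.image a) = p := fun h => (omega_ne hr hc a).2 h h0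
    have h2 : R v (Finset.univ.image a) ≤ p := (R_mono v (Finset.subset_univ _)).trans hU.le
    omega
  have hXc : (Finset.univ.image a).card = p := by
    rw [Finset.card_image_of_injective _ hinj]; simp
  have hconn : ∀ Z : Finset E, Z.Nonempty → Zᶜ.Nonempty → p + 1 ≤ R v Z + R v Zᶜ := by
    intro Z h1 h2
    by_cases hc1 : 2 ≤ Z.card
    · by_cases hc2 : 2 ≤ Zᶜ.card
      · have := hZ Z hc1 hc2
        omega
      · have h3 : Zᶜ.card = 1 := by
          have := Finset.card_pos.2 h2
          omega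
        obtain ⟨g, hg⟩ := Finset.card_eq_one.1 h3
        have h5 := conn_one v h4 hU hZ g
        rw [← hg, compl_compl] at h5
        omega
    · have h3 : Z.card = 1 := by
        have := Finset.card_pos.2 h1
        omega
      obtain ⟨g, hg⟩ := Finset.card_eq_one.1 h3
      rw [hg]
      exact conn_one v h4 hU hZ g
  obtain ⟨S, x, y, z, w, hS, hnd, hmem, hcd, hac, hbd⟩ :=
    hSP K E p v hU hconn ⟨_, hXc, hX⟩
  have hpair : ∀ (Y : Finset E) (e f : E), e ∈ Y → f ∈ Y → e ≠ f → 2 ≤ Y.card := by
    intro Y e f he hf hef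
    have : ({e, f} : Finset E) ⊆ Y := by
      intro t ht
      rcases Finset.mem_insert.1 ht with rfl | ht
      · exact he
      · rw [Finset.mem_singleton.1 ht]; exact hf
    have h := Finset.card_le_card this
    rwa [Finset.card_pair hef] at h
  have hnd' : x ≠ y ∧ z ≠ w := by
    simp only [List.nodup_cons, List.mem_cons, List.not_mem_nil, or_false, not_or] at hnd
    exact ⟨hnd.1.1, hnd.2.2.1⟩
  obtain ⟨C, hC1, hC2, hC3, hC4, hCc, hab', hcd'⟩ := hLN E (R v) (R_empty v)
    (fun X e => ⟨R_mono v (Finset.subset_insert _ _), R_insert v X e⟩) (R_submod v)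
    p x y z w hnd hU (fun Y h1 h2 h3 h5 =>
      hZ Y (hpair Y x y h1 h2 hnd'.1)
        (hpair Yᶜ z w (Finset.mem_compl.2 h3) (Finset.mem_compl.2 h5) hnd'.2))
  obtain ⟨q, rfl⟩ : ∃ q, p = q + 2 := ⟨S.card, hS.symm⟩
  have hSq : S.card = q := by omega
  have hCq : C.card = q := by omega
  have hlist : ∀ (T : Finset E), T.card = q → ∃ s : Fin q → E, Finset.univ.image s = T := by
    intro T hT
    let f := (T.equivFinOfCardEq hT).symm
    refine ⟨fun i => (f i : E), ?_⟩
    ext e
    simp only [Finset.mem_image, Finset.mem_univ, true_and]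
    constructor
    · rintro ⟨i, rfl⟩
      exact (f i).2
    · intro he
      exact ⟨f.symm ⟨e, he⟩, by simp⟩
  obtain ⟨s, hs⟩ := hlist S hSq
  obtain ⟨s', hs'⟩ := hlist C hCq
  have key := hCR 0 1 (Fin.cons x (Fin.cons y s)) (Fin.cons x (Fin.cons y s')) x y z w
    (by
      intro h
      have := congrArg Fin.val h
      simp at this)
  have n1 : ω (up (Fin.cons x (Fin.cons y s)) 0 1 z w) = 0 := by
    by_contra h
    have := (omega_ne hr hc _).1 h
    rw [up_image, hs] at this
    omega
  have n2 : ω (up (Fin.cons x (Fin.cons y s)) 0 1 x z) ≠ 0 := by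
    rw [omega_ne hr hc, up_image, hs]; exact hac
  have n3 : ω (up (Fin.cons x (Fin.cons y s)) 0 1 y w) ≠ 0 := by
    rw [omega_ne hr hc, up_image, hs]; exact hbd
  have n4 : ω (up (Fin.cons x (Fin.cons y s')) 0 1 x y) ≠ 0 := by
    rw [omega_ne hr hc, up_image, hs']; exact hab'
  have n5 : ω (up (Fin.cons x (Fin.cons y s')) 0 1 z w) ≠ 0 := by
    rw [omega_ne hr hc, up_image, hs']; exact hcd'
  rw [n1] at key
  have : ω (up (Fin.cons x (Fin.cons y s)) 0 1 x z) * ω (up (Fin.cons x (Fin.cons y s)) 0 1 y w) *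
      ω (up (Fin.cons x (Fin.cons y s')) 0 1 x y) * ω (up (Fin.cons x (Fin.cons y s')) 0 1 z w) = 0 := by
    rw [← key]; ring
  exact mul_ne_zero (mul_ne_zero (mul_ne_zero n2 n3) n4) n5 this

end Pool.Agent.Helper36.RN.UN
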